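import Pool.Agent.Lib.MP_6ff8d9_an_h69.Sect
import Pool.Agent.Lib.K708.HolAn

/-!
# Row KREL: the relation of equal germs is open and closed in the fibre product
-/

open Metric Filter Topology Set
open scoped ContDiff

namespace Pool.Agent.Lib.MP_6ff8d9_an.P69

open Pool.Agent.Lib.MP_6ff8d9_an Pool.Agent.Lib.MP_6ff8d9_an.H11

noncomputable section

variable {n : ℕ}

/-- open mapping form of SECT -/
lemma img {F : Cn n → ℂ} {O : Set (Cn n)} (hO : IsOpen O) (hF : DifferentiableOn ℂ F O)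
    {z0 : Cn n} (hz0 : z0 ∈ O) (hne : fderiv ℂ F z0 ≠ 0) {p : Cn n → Prop}
    (hp : ∀ᶠ z in 𝓝 z0, p z) : ∀ᶠ w in 𝓝 (F z0), ∃ z ∈ O, p z ∧ F z = w := by
  obtain ⟨N, hNsub, hN, hzN⟩ := _root_.eventually_nhds_iff.1 hp
  obtain ⟨ε, hε, σ, _, _, h⟩ := sect n F (O ∩ N) (hO.inter hN) (hF.mono inter_subset_left) z0
    ⟨hz0, hzN⟩ hne
  filter_upwards [ball_mem_nhds _ hε] with w hw
  exact ⟨σ w, (h w hw).1.1, hNsub _ (h w hw).1.2, (h w hw).2⟩

lemma continuousOn_fderiv {F : Cn n → ℂ} (hF : DifferentiableOn ℂ F (ball 0 1)) :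
    ContinuousOn (fderiv ℂ F) (ball 0 1) := by
  have h0 : ContDiffOn ℂ ω F (ball 0 1) := Pool.Agent.K708.holo_omega isOpen_ball hF
  have h1 : ContDiffOn ℂ 1 (fderiv ℂ F) (ball 0 1) := h0.fderiv_of_isOpen isOpen_ball (by simp)
  exact h1.continuousOn

lemma differentiableOn_fderiv {F : Cn n → ℂ} (hF : DifferentiableOn ℂ F (ball 0 1)) :
    DifferentiableOn ℂ (fderiv ℂ F) (ball 0 1) := by
  have h0 : ContDiffOn ℂ ω F (ball 0 1) := Pool.Agent.K708.holo_omega isOpen_ball hF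
  have h1 : ContDiffOn ℂ 1 (fderiv ℂ F) (ball 0 1) := h0.fderiv_of_isOpen isOpen_ball (by simp)
  exact h1.differentiableOn (by simp)

lemma isOpen_Oe {F : Cn n → ℂ} (hF : DifferentiableOn ℂ F (ball 0 1)) (e : Cn n) :
    IsOpen (Oe F e) := by
  have h1 : ContinuousOn (fun z => fderiv ℂ F z e) (ball 0 1) :=
    (continuousOn_fderiv hF).clm_apply continuousOn_const
  have h2 := h1.isOpen_inter_preimage isOpen_ball (isOpen_compl_singleton (x := (0 : ℂ)))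
  exact h2

lemma Oe_ne {F : Cn n → ℂ} {e z : Cn n} (hz : z ∈ Oe F e) : fderiv ℂ F z ≠ 0 := by
  intro h
  exact hz.2 (by rw [h]; rfl)

theorem krel (hL : LOCF) : KREL := by
  intro n F k e hF hk hD
  have hO : IsOpen (Oe F e) := isOpen_Oe hF e
  have hsub : Oe F e ⊆ ball (0 : Cn n) 1 := fun z hz => hz.1
  have hFO : DifferentiableOn ℂ F (Oe F e) := hF.mono hsub
  have hcF : ∀ z ∈ Oe F e, ContinuousAt F z := fun z hz =>
    (hF.differentiableAt (isOpen_ball.mem_nhds hz.1)).continuousAt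
  have hloc : ∀ z ∈ Oe F e, ∃ ε : ℝ, 0 < ε ∧ ∃ κ : ℂ → ℂ,
      DifferentiableOn ℂ κ (ball (F z) ε) ∧ ∀ᶠ y in 𝓝 z, k y = κ (F y) :=
    fun z hz => hL n F k z hF hk hD hz.1 (Oe_ne hz)
  refine ⟨hO, hFO, fun z hz => Oe_ne hz, ?_, ?_, ?_, fun z z' h => h.1, ?_, ?_⟩
  · intro z hz
    obtain ⟨ε, hε, κ, _, hκ⟩ := hloc z hz
    refine ⟨rfl, ?_⟩
    filter_upwards [hκ.prod_nhds hκ] with p hp hF
    rw [hp.1, hp.2, hF]
  · intro z hz z' hz' h
    refine ⟨h.1.symm, ?_⟩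
    have h1 := (continuous_swap.tendsto (z', z)).eventually h.2
    filter_upwards [h1] with p hp hF
    exact (hp hF.symm).symm
  · intro z hz z' hz' z'' hz'' h h'
    refine ⟨h.1.trans h'.1, ?_⟩
    have h1 := h.2
    have h2 := h'.2
    rw [nhds_prod_eq, eventually_prod_iff] at h1 h2
    obtain ⟨pa, hpa, pb, hpb, hab⟩ := h1
    obtain ⟨pa', hpa', pb', hpb', hab'⟩ := h2
    have h3 := img hO hFO hz' (Oe_ne hz') (hpb.and hpa')
    rw [← h.1] at h3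
    have h4 : ∀ᶠ y in 𝓝 z, ∃ x ∈ Oe F e, (pb x ∧ pa' x) ∧ F x = F y := (hcF z hz).eventually h3
    filter_upwards [(h4.and hpa).prod_nhds hpb'] with p hp hFp
    obtain ⟨⟨⟨x, hx, hx1, hx2⟩, hp1⟩, hp2⟩ := hp
    have h5 := hab hp1 hx1.1 hx2.symm
    have h6 := hab' hx1.2 hp2 (hx2.trans hFp)
    exact h5.trans h6
  · intro z hz z' hz' h
    filter_upwards [h.2.eventually_nhds] with p hp hFp
    exact ⟨hFp, hp⟩
  · intro z hz z' hz' hFz hn
    obtain ⟨ε1, hε1, κ1, hκ1, hk1⟩ := hloc z hz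
    obtain ⟨ε2, hε2, κ2, hκ2, hk2⟩ := hloc z' hz'
    rw [← hFz] at hκ2
    set D := ball (F z) (min ε1 ε2) with hDdef
    have hD1 : D ⊆ ball (F z) ε1 := ball_subset_ball (min_le_left _ _)
    have hD2 : D ⊆ ball (F z) ε2 := ball_subset_ball (min_le_right _ _)
    have hDo : IsOpen D := isOpen_ball
    have ha1 : AnalyticOnNhd ℂ κ1 D := (hκ1.mono hD1).analyticOnNhd hDo
    have ha2 : AnalyticOnNhd ℂ κ2 D := (hκ2.mono hD2).analyticOnNhd hDo
    have hzD : F z ∈ D := mem_ball_self (lt_min hε1 hε2)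
    have hclaim : ∀ b ∈ D, ¬ κ1 =ᶠ[𝓝 b] κ2 := by
      intro b hb hE
      have hEq : EqOn κ1 κ2 D :=
        ha1.eqOn_of_preconnected_of_eventuallyEq ha2 (convex_ball _ _).isPreconnected hb hE
      refine hn ⟨hFz, ?_⟩
      have h1 : ∀ᶠ y in 𝓝 z, F y ∈ D := (hcF z hz).eventually_mem (hDo.mem_nhds hzD)
      filter_upwards [(hk1.and h1).prod_nhds hk2] with p hp hFp
      rw [hp.1.1, hp.2, ← hFp]
      exact hEq hp.1.2
    have h1 : ∀ᶠ y in 𝓝 z, F y ∈ D := (hcF z hz).eventually_mem (hDo.mem_nhds hzD)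
    filter_upwards [((h1.and hk1.eventually_nhds).and (hO.mem_nhds hz)).prod_nhds
      (hk2.eventually_nhds.and (hO.mem_nhds hz'))] with p hp hFp hE
    obtain ⟨⟨⟨hp1, hp2⟩, hp3⟩, hp4, hp5⟩ := hp
    have h2 := hE.2
    rw [nhds_prod_eq, eventually_prod_iff] at h2
    obtain ⟨pa, hpa, pb, hpb, hab⟩ := h2
    have h3 := img hO hFO hp3 (Oe_ne hp3) (hpa.and hp2)
    have h4 := img hO hFO hp5 (Oe_ne hp5) (hpb.and hp4)
    rw [← hFp] at h4
    refine hclaim (F p.1) hp1 ?_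
    filter_upwards [h3, h4] with w hw hw'
    obtain ⟨x, _, ⟨hx1, hx2⟩, hx3⟩ := hw
    obtain ⟨y, _, ⟨hy1, hy2⟩, hy3⟩ := hw'
    have h5 := hab hx1 hy1 (hx3.trans hy3.symm)
    have h6 : κ1 w = k x := by rw [hx2, hx3]
    have h7 : κ2 w = k y := by rw [hy2, hy3]
    rw [h6, h7]
    exact h5

end

end Pool.Agent.Lib.MP_6ff8d9_an.P69
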