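import Pool.Agent.Lib.MP_6ff8d9_an_h11.Rows

/-!
# Row FLOW: the flow of a global vector field gives the transport between the fibres
-/

open Metric Filter Topology MvPolynomial InnerProductSpace Real Set

namespace Pool.Agent.Lib.MP_6ff8d9_an.H69

open Pool.Agent.Lib.MP_6ff8d9_an Pool.Agent.Lib.MP_6ff8d9_an.H11

noncomputable section

/-- global existence on `[0, 1]` for a bounded Lipschitz field -/
lemma exists_sol {E : Type*} [NormedAddCommGroup E] [NormedSpace ℝ E] [NormedSpace ℂ E]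
    [IsScalarTower ℝ ℂ E] [CompleteSpace E] {Ξ : E → E} {K : NNReal} {M : ℝ}
    (hK : LipschitzWith K Ξ) (hM : ∀ y, ‖Ξ y‖ ≤ M) (z : E) (w : ℂ) :
    ∃ y : ℝ → E, y 0 = z ∧
      ∀ t ∈ Icc (0 : ℝ) 1, HasDerivWithinAt y (w • Ξ (y t)) (Icc 0 1) t := by
  have hM0 : 0 ≤ M := (norm_nonneg _).trans (hM z)
  let L : NNReal := ⟨‖w‖ * M, by positivity⟩
  have hpl : IsPicardLindelof (fun _ y => w • Ξ y) (tmin := 0) (tmax := 1)
      ⟨0, by simp⟩ z L 0 L (‖w‖₊ * K) := by
    refine IsPicardLindelof.of_time_independent ?_ ?_ ?_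
    · intro x _
      rw [norm_smul]
      exact mul_le_mul_of_nonneg_left (hM x) (norm_nonneg _)
    · refine LipschitzWith.lipschitzOnWith ?_
      refine LipschitzWith.of_dist_le_mul fun x y => ?_
      rw [dist_smul₀]
      have h1 := hK.dist_le_mul x y
      push_cast
      rw [mul_assoc]
      exact mul_le_mul_of_nonneg_left h1 (norm_nonneg _)
    · simp
  obtain ⟨y, hy0, hy⟩ := hpl.exists_eq_forall_mem_Icc_hasDerivWithinAt₀
  exact ⟨y, hy0, hy⟩

/-- continuous dependence -/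
lemma dist_sol {E : Type*} [NormedAddCommGroup E] [NormedSpace ℝ E] [NormedSpace ℂ E]
    [IsScalarTower ℝ ℂ E] {Ξ : E → E} {K : NNReal} {M : ℝ}
    (hK : LipschitzWith K Ξ) (hM : ∀ y, ‖Ξ y‖ ≤ M) {z z0 : E} {w w0 : ℂ} {y y0 : ℝ → E}
    (hy0 : y 0 = z) (hy : ∀ t ∈ Icc (0 : ℝ) 1, HasDerivWithinAt y (w • Ξ (y t)) (Icc 0 1) t)
    (hy00 : y0 0 = z0)
    (hy1 : ∀ t ∈ Icc (0 : ℝ) 1, HasDerivWithinAt y0 (w0 • Ξ (y0 t)) (Icc 0 1) t) :
    dist (y 1) (y0 1) ≤ gronwallBound (dist z z0) (‖w0‖₊ * K + 1 : NNReal) (‖w - w0‖ * M + 0)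
      (1 - 0) := by
  have hder : ∀ (y : ℝ → E) (v : ℝ → E),
      (∀ t ∈ Icc (0 : ℝ) 1, HasDerivWithinAt y (v t) (Icc 0 1) t) →
      ∀ t ∈ Ico (0 : ℝ) 1, HasDerivWithinAt y (v t) (Ici t) t := by
    intro y v h t ht
    exact (h t ⟨ht.1, ht.2.le⟩).mono_of_mem_nhdsWithin (Icc_mem_nhdsGE_of_mem ht)
  have hLip : ∀ t : ℝ, LipschitzWith (‖w0‖₊ * K + 1) ((fun (_ : ℝ) (y : E) => w0 • Ξ y) t) := by
    intro t
    refine LipschitzWith.of_dist_le_mul fun x y => ?_
    show dist (w0 • Ξ x) (w0 • Ξ y) ≤ _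
    rw [dist_smul₀]
    have h1 := hK.dist_le_mul x y
    have h2 := mul_le_mul_of_nonneg_left h1 (norm_nonneg w0)
    push_cast
    have h3 : 0 ≤ dist x y := dist_nonneg
    calc ‖w0‖ * dist (Ξ x) (Ξ y) ≤ ‖w0‖ * (K * dist x y) := h2
      _ ≤ (‖w0‖ * K + 1) * dist x y := by linarith
  refine dist_le_of_approx_trajectories_ODE (v := fun _ y => w0 • Ξ y) (f := y)
    (f' := fun t => w • Ξ (y t)) (g := y0) (g' := fun t => w0 • Ξ (y0 t)) (a := 0) (b := 1)
    (δ := dist z z0) (εf := ‖w - w0‖ * M) (εg := 0) hLip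
    (fun t ht => (hy t ht).continuousWithinAt) (hder y _ hy) ?_
    (fun t ht => (hy1 t ht).continuousWithinAt) (hder y0 _ hy1) ?_ ?_ 1 ⟨zero_le_one, le_rfl⟩
  · intro t _
    show dist (w • Ξ (y t)) (w0 • Ξ (y t)) ≤ _
    rw [dist_eq_norm, ← sub_smul, norm_smul]
    exact mul_le_mul_of_nonneg_left (hM _) (norm_nonneg _)
  · intro t _
    show dist (w0 • Ξ (y0 t)) (w0 • Ξ (y0 t)) ≤ 0
    rw [dist_self]
  · rw [hy0, hy00]

/-- the time one map is continuous in the initial point and the direction -/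
lemma continuous_sol {E : Type*} [NormedAddCommGroup E] [NormedSpace ℝ E] [NormedSpace ℂ E]
    [IsScalarTower ℝ ℂ E] {Ξ : E → E} {K : NNReal} {M : ℝ}
    (hK : LipschitzWith K Ξ) (hM : ∀ y, ‖Ξ y‖ ≤ M) (Y : E → ℂ → ℝ → E)
    (hY0 : ∀ z w, Y z w 0 = z)
    (hY : ∀ z w, ∀ t ∈ Icc (0 : ℝ) 1, HasDerivWithinAt (Y z w) (w • Ξ (Y z w t)) (Icc 0 1) t) :
    Continuous (fun p : E × ℂ => Y p.1 p.2 1) := by
  rw [continuous_iff_continuousAt]
  rintro ⟨z0, w0⟩
  have hne : ((‖w0‖₊ * K + 1 : NNReal) : ℝ) ≠ 0 := by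
    push_cast
    positivity
  have hb : ∀ p : E × ℂ, dist (Y p.1 p.2 1) (Y z0 w0 1) ≤
      gronwallBound (dist p.1 z0) (‖w0‖₊ * K + 1 : NNReal) (‖p.2 - w0‖ * M + 0) (1 - 0) := by
    intro p
    exact dist_sol hK hM (hY0 _ _) (hY _ _) (hY0 _ _) (hY _ _)
  have hg : Tendsto (fun p : E × ℂ => gronwallBound (dist p.1 z0) (‖w0‖₊ * K + 1 : NNReal)
      (‖p.2 - w0‖ * M + 0) (1 - 0)) (𝓝 (z0, w0)) (𝓝 0) := by
    have he : (fun p : E × ℂ => gronwallBound (dist p.1 z0) (‖w0‖₊ * K + 1 : NNReal)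
        (‖p.2 - w0‖ * M + 0) (1 - 0)) = fun p : E × ℂ => dist p.1 z0 *
        Real.exp (((‖w0‖₊ * K + 1 : NNReal) : ℝ) * (1 - 0)) +
        (‖p.2 - w0‖ * M + 0) / ((‖w0‖₊ * K + 1 : NNReal) : ℝ) *
        (Real.exp (((‖w0‖₊ * K + 1 : NNReal) : ℝ) * (1 - 0)) - 1) := by
      funext p
      rw [gronwallBound_of_K_ne_0 hne]
    rw [he]
    have hc : Continuous (fun p : E × ℂ => dist p.1 z0 *
        Real.exp (((‖w0‖₊ * K + 1 : NNReal) : ℝ) * (1 - 0)) +
        (‖p.2 - w0‖ * M + 0) / ((‖w0‖₊ * K + 1 : NNReal) : ℝ) *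
        (Real.exp (((‖w0‖₊ * K + 1 : NNReal) : ℝ) * (1 - 0)) - 1)) := by
      fun_prop
    have h1 := hc.tendsto (z0, w0)
    simpa using h1
  show Tendsto (fun p : E × ℂ => Y p.1 p.2 1) (𝓝 (z0, w0)) (𝓝 (Y z0 w0 1))
  rw [tendsto_iff_dist_tendsto_zero]
  exact squeeze_zero (fun _ => dist_nonneg) hb hg

/-- the trajectory stays in the ball and `f` grows linearly along it -/
lemma sol_mem {n : ℕ} {f : Cn n → ℂ} {a : ℂ} {ρ : ℝ} {Ξ : Cn n → Cn n} {N : Set (Cn n)}
    {C : ℝ} (hf : ContinuousOn f (ball 0 1)) (hN : IsOpen N)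
    (hsub : {z : Cn n | ‖z‖ ≤ 1 ∧ f z ∈ closedBall a ρ} ⊆ N)
    (hd : ∀ y ∈ N, DifferentiableAt ℂ f y ∧ fderiv ℂ f y (Ξ y) = 1)
    (hC : ∀ y ∈ N, ‖y‖ < 1 → ‖inner ℂ y (Ξ y)‖ ≤ C * (1 - ‖y‖ ^ 2))
    {z : Cn n} {w : ℂ} {y : ℝ → Cn n} (hz : ‖z‖ < 1) (hfz : f z ∈ closedBall a ρ)
    (hw : f z + w ∈ closedBall a ρ) (hy0 : y 0 = z)
    (hy : ∀ t ∈ Icc (0 : ℝ) 1, HasDerivWithinAt y (w • Ξ (y t)) (Icc 0 1) t) :
    ∀ t ∈ Icc (0 : ℝ) 1, ‖y t‖ < 1 ∧ f (y t) = f z + t * w := by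
  set C' : ℝ := 2 * ‖w‖ * |C| with hC'
  have hC'0 : 0 ≤ C' := by positivity
  have hycont : ContinuousOn y (Icc 0 1) := fun t ht => (hy t ht).continuousWithinAt
  -- the segment from `f z` to `f z + w` lies in the disc
  have hseg : ∀ t ∈ Icc (0 : ℝ) 1, f z + t * w ∈ closedBall a ρ := by
    intro t ht
    have h1 := (convex_closedBall a ρ) hfz hw (sub_nonneg.2 ht.2) ht.1 (by ring)
    have h2 : (1 - t) • f z + t • (f z + w) = f z + t * w := by
      simp only [Complex.real_smul]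
      push_cast
      ring
    rwa [h2] at h1
  set S : Set ℝ := {t | (1 - ‖z‖ ^ 2) ≤ (1 - ‖y t‖ ^ 2) * Real.exp (C' * t) ∧
    f (y t) = f z + t * w} with hS
  have hpos : 0 < 1 - ‖z‖ ^ 2 := by nlinarith [norm_nonneg z]
  have hball : ∀ t, (1 - ‖z‖ ^ 2) ≤ (1 - ‖y t‖ ^ 2) * Real.exp (C' * t) → ‖y t‖ < 1 := by
    intro t ht
    have h1 : 0 < 1 - ‖y t‖ ^ 2 := by
      by_contra h2
      have h3 : (1 - ‖y t‖ ^ 2) * Real.exp (C' * t) ≤ 0 :=
        mul_nonpos_of_nonpos_of_nonneg (not_lt.1 h2) (Real.exp_pos _).le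
      linarith
    nlinarith [norm_nonneg (y t)]
  have hclosed : IsClosed (S ∩ Icc 0 1) := by
    rw [← isSeqClosed_iff_isClosed]
    intro u t hu htt
    have htI : t ∈ Icc (0 : ℝ) 1 := isClosed_Icc.mem_of_tendsto htt
      (Eventually.of_forall fun k => (hu k).2)
    have hyt : Tendsto (fun k => y (u k)) atTop (𝓝 (y t)) := by
      have h1 := hycont t htI
      exact h1.tendsto.comp (tendsto_nhdsWithin_iff.2 ⟨htt, Eventually.of_forall fun k => (hu k).2⟩)
    have h1 : (1 - ‖z‖ ^ 2) ≤ (1 - ‖y t‖ ^ 2) * Real.exp (C' * t) := by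
      refine ge_of_tendsto' (?_ : Tendsto (fun k => (1 - ‖y (u k)‖ ^ 2) * Real.exp (C' * u k)) atTop
        (𝓝 ((1 - ‖y t‖ ^ 2) * Real.exp (C' * t)))) (fun k => (hu k).1.1)
      exact ((hyt.norm.pow 2).const_sub 1).mul
        ((Real.continuous_exp.tendsto _).comp (htt.const_mul C'))
    refine ⟨⟨h1, ?_⟩, htI⟩
    have h2 : ContinuousAt f (y t) :=
      hf.continuousAt (isOpen_ball.mem_nhds (mem_ball_zero_iff.2 (hball t h1)))
    have h3 : Tendsto (fun k => f (y (u k))) atTop (𝓝 (f (y t))) := h2.tendsto.comp hyt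
    have h4 : Tendsto (fun k => f z + (u k : ℂ) * w) atTop (𝓝 (f z + (t : ℂ) * w)) :=
      (((Complex.continuous_ofReal.tendsto _).comp htt).mul_const w).const_add _
    have h5 : (fun k => f (y (u k))) = fun k => f z + (u k : ℂ) * w :=
      funext fun k => (hu k).1.2
    rw [h5] at h3
    exact tendsto_nhds_unique h3 h4
  have h0 : (0 : ℝ) ∈ S := by
    refine ⟨?_, ?_⟩
    · rw [hy0]; simp
    · rw [hy0]; simp
  have hstep : ∀ x ∈ S ∩ Ico (0 : ℝ) 1, ∀ b ∈ Ioi x, (S ∩ Ioc x b).Nonempty := by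
    rintro x ⟨⟨hx1, hx2⟩, hxI⟩ b hb
    have hyx : ‖y x‖ < 1 := hball x hx1
    have hyxN : y x ∈ N := hsub ⟨hyx.le, by
      rw [hx2]; exact hseg x ⟨hxI.1, hxI.2.le⟩⟩
    have hopen : IsOpen (N ∩ ball (0 : Cn n) 1) := hN.inter isOpen_ball
    have hmem : y x ∈ N ∩ ball (0 : Cn n) 1 := ⟨hyxN, mem_ball_zero_iff.2 hyx⟩
    have hev : ∀ᶠ t in 𝓝[Icc (0 : ℝ) 1] x, y t ∈ N ∩ ball (0 : Cn n) 1 :=
      (hycont x ⟨hxI.1, hxI.2.le⟩) (hopen.mem_nhds hmem)
    obtain ⟨ε, hε, hεs⟩ := Metric.mem_nhdsWithin_iff.1 hev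
    set b' : ℝ := min (min b 1) (x + ε / 2) with hb'
    have hxb : x < b' := by
      rw [hb', lt_min_iff, lt_min_iff]
      exact ⟨⟨hb, hxI.2⟩, by linarith⟩
    have hb'1 : b' ≤ 1 := (min_le_left _ _).trans (min_le_right _ _)
    have hb'b : b' ≤ b := (min_le_left _ _).trans (min_le_left _ _)
    have hb'e : b' ≤ x + ε / 2 := min_le_right _ _
    have hin : ∀ t ∈ Icc x b', y t ∈ N ∩ ball (0 : Cn n) 1 := by
      intro t ht
      refine hεs ⟨?_, hxI.1.trans ht.1, ht.2.trans hb'1⟩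
      rw [mem_ball, Real.dist_eq, abs_lt]
      constructor
      · linarith [ht.1]
      · linarith [ht.2]
    have hsub1 : Icc x b' ⊆ Icc (0 : ℝ) 1 := Icc_subset_Icc hxI.1 hb'1
    have hder : ∀ t ∈ Ico x b', HasDerivWithinAt y (w • Ξ (y t)) (Ici t) t := by
      intro t ht
      exact (hy t ⟨hxI.1.trans ht.1, (ht.2.trans_le hb'1).le⟩).mono_of_mem_nhdsWithin
        (Icc_mem_nhdsGE_of_mem ⟨hxI.1.trans ht.1, ht.2.trans_le hb'1⟩)
    have hder2 : ∀ t ∈ Ioo x b', HasDerivAt y (w • Ξ (y t)) t := by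
      intro t ht
      exact (hy t ⟨hxI.1.trans ht.1.le, (ht.2.trans_le hb'1).le⟩).hasDerivAt
        (Icc_mem_nhds (hxI.1.trans_lt ht.1) (ht.2.trans_le hb'1))
    refine ⟨b', ⟨?_, ?_⟩, hxb, hb'b⟩
    · -- monotone
      have hmono : MonotoneOn (fun t => (1 - ‖y t‖ ^ 2) * Real.exp (C' * t)) (Icc x b') := by
        have hyc : ContinuousOn y (Icc x b') := hycont.mono hsub1
        have hder3 : ∀ t ∈ Ioo x b', HasDerivAt (fun t => (1 - ‖y t‖ ^ 2) * Real.exp (C' * t))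
            ((-(2 * (inner ℂ (y t) (w • Ξ (y t))).re)) * Real.exp (C' * t) +
              (1 - ‖y t‖ ^ 2) * (Real.exp (C' * t) * C')) t := by
          intro t ht
          have h1 := hder2 t ht
          have h2 : HasDerivAt (fun t => inner ℂ (y t) (y t))
              (inner ℂ (y t) (w • Ξ (y t)) + inner ℂ (w • Ξ (y t)) (y t)) t :=
            HasDerivAt.inner ℂ h1 h1
          have h3 : HasDerivAt (fun t => (inner ℂ (y t) (y t)).re)
              (inner ℂ (y t) (w • Ξ (y t)) + inner ℂ (w • Ξ (y t)) (y t)).re t :=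
            (Complex.reCLM.hasFDerivAt.comp_hasDerivAt t h2)
          have h4 : (fun t => (inner ℂ (y t) (y t)).re) = fun t => ‖y t‖ ^ 2 := by
            funext s
            exact (inner_self_eq_norm_sq (𝕜 := ℂ) (y s))
          have h5 : (inner ℂ (y t) (w • Ξ (y t)) + inner ℂ (w • Ξ (y t)) (y t)).re =
              2 * (inner ℂ (y t) (w • Ξ (y t))).re := by
            rw [Complex.add_re, ← inner_conj_symm (w • Ξ (y t)) (y t), Complex.conj_re]
            ring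
          rw [h4, h5] at h3
          have h6 : HasDerivAt (fun t => Real.exp (C' * t)) (Real.exp (C' * t) * C') t := by
            have h7 : HasDerivAt (fun t => C' * t) C' t := by
              simpa using (hasDerivAt_id t).const_mul C'
            exact h7.exp
          exact (h3.const_sub 1).mul h6
        refine monotoneOn_of_deriv_nonneg (convex_Icc _ _) ?_ ?_ ?_
        · exact (continuousOn_const.sub (hyc.norm.pow 2)).mul (by fun_prop)
        · rw [interior_Icc]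
          intro t ht
          exact (hder3 t ht).differentiableAt.differentiableWithinAt
        · rw [interior_Icc]
          intro t ht
          rw [(hder3 t ht).deriv]
          have h1 := hin t ⟨ht.1.le, ht.2.le⟩
          have h2 : ‖y t‖ < 1 := mem_ball_zero_iff.1 h1.2
          have h3 := hC (y t) h1.1 h2
          have h4 : 0 ≤ 1 - ‖y t‖ ^ 2 := by nlinarith [norm_nonneg (y t)]
          have h5 : |(inner ℂ (y t) (w • Ξ (y t))).re| ≤ ‖w‖ * (|C| * (1 - ‖y t‖ ^ 2)) := by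
            calc |(inner ℂ (y t) (w • Ξ (y t))).re| ≤ ‖inner ℂ (y t) (w • Ξ (y t))‖ :=
                  Complex.abs_re_le_norm _
              _ = ‖w‖ * ‖inner ℂ (y t) (Ξ (y t))‖ := by rw [inner_smul_right, norm_mul]
              _ ≤ ‖w‖ * (|C| * (1 - ‖y t‖ ^ 2)) := by
                refine mul_le_mul_of_nonneg_left (h3.trans ?_) (norm_nonneg _)
                exact mul_le_mul_of_nonneg_right (le_abs_self C) h4
          have h6 := (abs_le.1 h5).2
          have h7 : 0 < Real.exp (C' * t) := Real.exp_pos _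
          have h8 : 0 ≤ -(2 * (inner ℂ (y t) (w • Ξ (y t))).re) + (1 - ‖y t‖ ^ 2) * C' := by
            rw [hC']
            nlinarith
          have h9 : (-(2 * (inner ℂ (y t) (w • Ξ (y t))).re)) * Real.exp (C' * t) +
              (1 - ‖y t‖ ^ 2) * (Real.exp (C' * t) * C') =
              (-(2 * (inner ℂ (y t) (w • Ξ (y t))).re) + (1 - ‖y t‖ ^ 2) * C') *
                Real.exp (C' * t) := by ring
          rw [h9]
          exact mul_nonneg h8 h7.le
      have h1 := hmono (left_mem_Icc.2 hxb.le) (right_mem_Icc.2 hxb.le) hxb.le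
      exact hx1.trans h1
    · have hcont : ContinuousOn (fun t : ℝ => f (y t) - (f z + t * w)) (Icc x b') := by
        have h1 : ContinuousOn (fun t => f (y t)) (Icc x b') :=
          hf.comp (hycont.mono hsub1) fun t ht => (hin t ht).2
        exact h1.sub (by fun_prop)
      have hconst := constant_of_has_deriv_right_zero hcont (fun t ht => by
        have h1 := hd (y t) (hin t ⟨ht.1, ht.2.le⟩).1
        have h2 : HasDerivWithinAt (fun t => f (y t))
            ((fderiv ℂ f (y t)).restrictScalars ℝ (w • Ξ (y t))) (Ici t) t :=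
          (h1.1.hasFDerivAt.restrictScalars ℝ).comp_hasDerivWithinAt t (hder t ht)
        have h3 : (fderiv ℂ f (y t)).restrictScalars ℝ (w • Ξ (y t)) = w := by
          rw [ContinuousLinearMap.coe_restrictScalars', map_smul, h1.2, smul_eq_mul, mul_one]
        rw [h3] at h2
        have h4 : HasDerivWithinAt (fun t : ℝ => f z + (t : ℂ) * w) w (Ici t) t := by
          have h5 : HasDerivAt (fun t : ℝ => (t : ℂ)) 1 t := Complex.ofRealCLM.hasDerivAt
          have h6 := (h5.mul_const w).const_add (f z)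
          rw [one_mul] at h6
          exact h6.hasDerivWithinAt
        have h7 := h2.sub h4
        rw [sub_self] at h7
        exact h7)
      have h1 := hconst b' (right_mem_Icc.2 hxb.le)
      have h2 : f (y x) - (f z + (x : ℂ) * w) = 0 := by rw [hx2, sub_self]
      have h3 : f (y b') - (f z + (b' : ℂ) * w) = 0 := by
        rw [← h2]; exact h1
      exact sub_eq_zero.1 h3
  have hall := hclosed.Icc_subset_of_forall_exists_gt h0 hstep
  intro t ht
  exact ⟨hball t (hall ht).1, (hall ht).2⟩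

/-- row FLOW -/
theorem flow : FLOW := by
  intro n f a ρ Ξ N C _ hf hΞ hsupp hN hsub hd hC
  obtain ⟨M, hM⟩ := hΞ.continuous.bounded_above_of_compact_support hsupp
  obtain ⟨K, hK⟩ := hΞ.lipschitzWith_of_hasCompactSupport hsupp one_ne_zero
  choose Y hY0 hY using fun (z : Cn n) (w : ℂ) => exists_sol hK hM z w
  have hcont := continuous_sol hK hM Y hY0 hY
  refine ⟨fun z c => Y z (c - f z) 1, ⟨?_, ?_, ?_, ?_⟩⟩
  · intro z c hz hfz hc
    have h1 := sol_mem hf hN hsub hd hC hz hfz (w := c - f z) (by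
      rw [add_sub_cancel]; exact hc) (hY0 z _) (hY z _) 1 ⟨zero_le_one, le_rfl⟩
    refine ⟨h1.1, ?_⟩
    rw [h1.2]
    push_cast
    ring
  · intro z _ _
    show Y z (f z - f z) 1 = z
    rw [sub_self]
    have hcont0 : ContinuousOn (Y z 0) (Icc 0 1) := fun t ht => (hY z 0 t ht).continuousWithinAt
    have h1 := constant_of_has_deriv_right_zero hcont0 (fun t ht => by
      have h2 := (hY z 0 t ⟨ht.1, ht.2.le⟩).mono_of_mem_nhdsWithin
        (Icc_mem_nhdsGE_of_mem ht)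
      rwa [zero_smul] at h2) 1 ⟨zero_le_one, le_rfl⟩
    rw [h1, hY0]
  · intro c _
    have h1 : ContinuousOn (fun z : Cn n => ((z, c - f z) : Cn n × ℂ))
        {z | ‖z‖ < 1 ∧ f z ∈ closedBall a ρ} := by
      refine continuousOn_id.prodMk (continuousOn_const.sub (hf.mono ?_))
      intro z hz
      exact mem_ball_zero_iff.2 hz.1
    exact hcont.comp_continuousOn h1
  · intro z _ _
    have h1 : Continuous (fun c : ℂ => ((z, c - f z) : Cn n × ℂ)) := by fun_prop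
    exact (hcont.comp h1).continuousOn

end

end Pool.Agent.Lib.MP_6ff8d9_an.H69
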