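import Pool.Agent.Lib.MP_6ff8d9_an_h69.RowsU
import Pool.Agent.Lib.MP_6ff8d9_an_h69.Krel
import Pool.Agent.Lib.MP_6ff8d9_an_h21r.Prime
import Pool.Agent.Lib.MP_6ff8d9_an_h82.Green
import Pool.Agent.Lib.MP_708a61_C.Montel
import Pool.Agent.Lib.K708.HolAn

/-!
# MP_6ff8d9 UNIFORMISATION: tools
-/

open Metric Filter Topology Set
open scoped ComplexConjugate ContDiff

namespace Pool.Agent.Lib.MP_6ff8d9_an.P69

open Pool.Agent.Lib.MP_6ff8d9_an Pool.Agent.Lib.MP_6ff8d9_an.H11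

noncomputable section

variable {n : ℕ}

lemma diffAt {F : Cn n → ℂ} (hF : DifferentiableOn ℂ F (ball 0 1)) {z : Cn n}
    (hz : z ∈ ball (0 : Cn n) 1) : DifferentiableAt ℂ F z :=
  (hF z hz).differentiableAt (isOpen_ball.mem_nhds hz)

/-- directional derivatives of holomorphic functions are holomorphic -/
lemma fd_diffOn {F : Cn n → ℂ} (hF : DifferentiableOn ℂ F (ball 0 1)) (e : Cn n) :
    DifferentiableOn ℂ (fun z => fderiv ℂ F z e) (ball 0 1) := by
  have h1 : ContDiffOn ℂ ω F (ball 0 1) := Pool.Agent.K708.holo_omega isOpen_ball hF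
  have h2 : ContDiffOn ℂ 1 (fderiv ℂ F) (ball 0 1) := h1.fderiv_of_isOpen isOpen_ball (by simp)
  exact (h2.differentiableOn (by simp)).clm_apply (differentiableOn_const e)

lemma Dep.symm {F G : Cn n → ℂ} (h : Dep F G) : Dep G F := by
  intro z hz v v'
  have h1 := h z hz v v'
  linear_combination -h1

lemma dep_self (F : Cn n → ℂ) : Dep F F := by
  intro z _ v v'
  ring

/-- two functions dependent on a nonconstant function are dependent -/
lemma dep_trans {F G H : Cn n → ℂ} (hF : DifferentiableOn ℂ F (ball 0 1))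
    (hG : DifferentiableOn ℂ G (ball 0 1)) (hH : DifferentiableOn ℂ H (ball 0 1))
    {e : Cn n} (hne : (Oe F e).Nonempty) (hFG : Dep F G) (hFH : Dep F H) : Dep G H := by
  intro z hz v v'
  have hFe := fd_diffOn hF e
  have hfr := freq_ne (c := (0 : Cn n)) (r := 1) hFe
    (by obtain ⟨p, hp⟩ := hne; exact ⟨p, hp.1, hp.2⟩) hz
  have hc : ContinuousAt (fun z => fderiv ℂ G z v * fderiv ℂ H z v' -
      fderiv ℂ G z v' * fderiv ℂ H z v) z :=
    (((diffAt (fd_diffOn hG v) hz).continuousAt.mul (diffAt (fd_diffOn hH v') hz).continuousAt).sub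
      ((diffAt (fd_diffOn hG v') hz).continuousAt.mul (diffAt (fd_diffOn hH v) hz).continuousAt))
  by_contra hcon
  have h1 : (fun z => fderiv ℂ G z v * fderiv ℂ H z v' -
      fderiv ℂ G z v' * fderiv ℂ H z v) z ≠ 0 := sub_ne_zero.2 hcon
  obtain ⟨y, hy, hy2⟩ := (hfr.and_eventually (hc.eventually_ne h1)).exists
  apply hy2
  have e1 := hFG y hy.1 e v
  have e2 := hFG y hy.1 e v'
  have e3 := hFH y hy.1 e v
  have e4 := hFH y hy.1 e v'
  have h2 : fderiv ℂ F y e ≠ 0 := hy.2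
  have h3 : fderiv ℂ F y e * (fderiv ℂ G y v * fderiv ℂ H y v' -
      fderiv ℂ G y v' * fderiv ℂ H y v) = 0 := by
    have h4 : fderiv ℂ F y e * (fderiv ℂ F y e * (fderiv ℂ G y v * fderiv ℂ H y v' -
      fderiv ℂ G y v' * fderiv ℂ H y v)) = 0 := by
      linear_combination (fderiv ℂ F y e * fderiv ℂ H y v') * e1 -
        (fderiv ℂ F y e * fderiv ℂ H y v) * e2 + fderiv ℂ F y v * fderiv ℂ G y e * e4 -
        fderiv ℂ F y v' * fderiv ℂ G y e * e3
    exact (mul_eq_zero.1 h4).resolve_left h2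
  exact (mul_eq_zero.1 h3).resolve_left h2

lemma mob_zero' (w : ℂ) : mob 0 w = w := by simp [mob]

/-- limits along ultrafilters of bounded holomorphic functions, with derivatives -/
theorem mont2 {m : ℕ} (u : Ultrafilter ℕ) (G : ℕ → Cn m → ℂ)
    (hGd : ∀ j, DifferentiableOn ℂ (G j) (ball 0 1))
    (hGB : ∀ j, ∀ z ∈ ball (0 : Cn m) 1, ‖G j z‖ ≤ 1) :
    ∃ G' : Cn m → ℂ, DifferentiableOn ℂ G' (ball 0 1) ∧
      (∀ z ∈ ball (0 : Cn m) 1, Tendsto (fun j => G j z) (u : Filter ℕ) (𝓝 (G' z))) ∧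
      ∀ z ∈ ball (0 : Cn m) 1,
        Tendsto (fun j => fderiv ℂ (G j) z) (u : Filter ℕ) (𝓝 (fderiv ℂ G' z)) := by
  classical
  have hu : NeBot (u : Filter ℕ) := u.neBot
  have : ProperSpace (Cn m →L[ℂ] ℂ) := FiniteDimensional.proper ℂ _
  obtain ⟨R, hR⟩ : ∃ R : Cn m → ℝ, R = fun z => 1 - dist z 0 := ⟨_, rfl⟩
  have hR0 : ∀ z ∈ Metric.ball (0 : Cn m) 1, 0 < R z := by
    intro z hz
    rw [hR]
    rw [Metric.mem_ball] at hz
    simp only
    linarith
  have hRs : ∀ z, Metric.ball z (R z) ⊆ Metric.ball (0 : Cn m) 1 := by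
    intro z
    rw [hR]
    refine Metric.ball_subset_ball' ?_
    simp
  have hest : ∀ z ∈ Metric.ball (0 : Cn m) 1, ∀ n : ℕ, ‖fderiv ℂ (G n) z‖ ≤ 2 * 1 / R z ∧
      ∀ w ∈ Metric.ball z (R z), ‖G n w - G n z‖ ≤ 2 * 1 / R z * dist w z ∧
      ‖G n w - G n z - fderiv ℂ (G n) z (w - z)‖ ≤ 4 * 1 / R z ^ 2 * ‖w - z‖ ^ 2 := by
    intro z hz n
    exact Pool.Agent.K708C.cauchy2 (hR0 z hz) ((hGd n).mono (hRs z))
      fun w hw => hGB n w (hRs z hw)
  have hlim : ∀ z ∈ Metric.ball (0 : Cn m) 1, ∃ y : ℂ,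
      Tendsto (fun n => G n z) (u : Filter ℕ) (𝓝 y) := by
    intro z hz
    obtain ⟨y, -, hy⟩ := (isCompact_closedBall (0 : ℂ) 1).ultrafilter_le_nhds
      (u.map fun n => G n z) (by
        rw [le_principal_iff, Ultrafilter.coe_map, mem_map]
        filter_upwards with n
        rw [mem_preimage, mem_closedBall_zero_iff]
        exact hGB n z hz)
    exact ⟨y, hy⟩
  have hlimA : ∀ z ∈ Metric.ball (0 : Cn m) 1, ∃ y : Cn m →L[ℂ] ℂ,
      Tendsto (fun n => fderiv ℂ (G n) z) (u : Filter ℕ) (𝓝 y) := by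
    intro z hz
    obtain ⟨y, -, hy⟩ := (isCompact_closedBall (0 : Cn m →L[ℂ] ℂ) (2 * 1 / R z)).ultrafilter_le_nhds
      (u.map fun n => fderiv ℂ (G n) z) (by
        rw [le_principal_iff, Ultrafilter.coe_map, mem_map]
        filter_upwards with n
        rw [mem_preimage, mem_closedBall_zero_iff]
        exact (hest z hz n).1)
    exact ⟨y, hy⟩
  choose! G' hG' using hlim
  choose! A hA using hlimA
  have hder : ∀ z ∈ Metric.ball (0 : Cn m) 1, HasFDerivAt G' (A z) z := by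
    intro z hz
    have hq : ∀ w ∈ Metric.ball z (R z), ‖G' w - G' z - A z (w - z)‖ ≤
        4 * 1 / R z ^ 2 * ‖w - z‖ ^ 2 := by
      intro w hw
      have h1 : Tendsto (fun n => ‖G n w - G n z - fderiv ℂ (G n) z (w - z)‖) (u : Filter ℕ)
          (𝓝 ‖G' w - G' z - A z (w - z)‖) := by
        refine (((hG' w (hRs z hw)).sub (hG' z hz)).sub ?_).norm
        exact ((ContinuousLinearMap.apply ℂ ℂ (w - z)).continuous.tendsto (A z)).comp (hA z hz)
      refine le_of_tendsto h1 ?_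
      filter_upwards with n
      exact ((hest z hz n).2 w hw).2
    refine HasFDerivAt.of_isLittleO ?_
    have h3 : (fun w => G' w - G' z - A z (w - z)) =O[𝓝 z] fun w => ‖w - z‖ ^ 2 := by
      refine Asymptotics.IsBigO.of_bound (4 * 1 / R z ^ 2) ?_
      filter_upwards [Metric.ball_mem_nhds z (hR0 z hz)] with w hw
      refine (hq w hw).trans (le_of_eq ?_)
      rw [Real.norm_of_nonneg (by positivity)]
    exact h3.trans_isLittleO (Asymptotics.isLittleO_pow_sub_sub z (by norm_num))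
  refine ⟨G', fun z hz => (hder z hz).differentiableAt.differentiableWithinAt, hG', fun z hz => ?_⟩
  rw [(hder z hz).fderiv]
  exact hA z hz

/-- the maximum principle -/
lemma max_const {w : Cn n → ℂ} (hw : DifferentiableOn ℂ w (ball 0 1))
    (hb : ∀ z ∈ ball (0 : Cn n) 1, ‖w z‖ ≤ 1) {p : Cn n} (hp : p ∈ ball (0 : Cn n) 1)
    (h1 : 1 ≤ ‖w p‖) : ∀ z ∈ ball (0 : Cn n) 1, w z = w p := by
  intro z hz
  exact Complex.eqOn_of_isPreconnected_of_isMaxOn_norm (convex_ball (0 : Cn n) 1).isPreconnected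
    isOpen_ball hw hp (fun y hy => (hb y hy).trans h1) hz

/-- the derivative of a holomorphic function of `φ` -/
lemma dep_comp {F φ : Cn n → ℂ} (hφ : DifferentiableOn ℂ φ (ball 0 1)) (hD : Dep F φ)
    {g : ℂ → ℂ} (hg : ∀ z ∈ ball (0 : Cn n) 1, DifferentiableAt ℂ g (φ z)) :
    Dep F (fun z => g (φ z)) := by
  intro z hz v v'
  have h1 : HasFDerivAt (fun z => g (φ z)) ((deriv g (φ z)) • fderiv ℂ φ z) z :=
    (hg z hz).hasDerivAt.comp_hasFDerivAt z (diffAt hφ hz).hasFDerivAt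
  rw [h1.fderiv]
  have h2 := hD z hz v v'
  simp only [smul_apply, smul_eq_mul]
  linear_combination (deriv g (φ z)) * h2

/-- the Moebius transform of a bounded nonconstant function is in the family -/
lemma fam_mob {F w : Cn n → ℂ} (hw : DifferentiableOn ℂ w (ball 0 1)) (hD : Dep F w)
    (hlt : ∀ z ∈ ball (0 : Cn n) 1, ‖w z‖ < 1) {p : Cn n} (hp : p ∈ ball (0 : Cn n) 1) :
    Fam n F p (fun z => (w z - w p) / (1 - conj (w p) * w z)) := by
  have hden : ∀ z ∈ ball (0 : Cn n) 1, 1 - conj (w p) * w z ≠ 0 := fun z hz =>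
    H82L.den_ne (hlt p hp) (hlt z hz)
  have hdg : ∀ z ∈ ball (0 : Cn n) 1,
      DifferentiableAt ℂ (fun t : ℂ => (t - w p) / (1 - conj (w p) * t)) (w z) := fun z hz =>
    (differentiableAt_id.sub_const _).div
      ((differentiableAt_id.const_mul _).const_sub 1) (hden z hz)
  refine ⟨fun z hz => ?_, dep_comp hw hD hdg, fun z hz => ?_, by simp⟩
  · exact ((hdg z hz).comp z (diffAt hw hz)).differentiableWithinAt
  · have h1 := H82L.norm_mob_lt (hlt p hp) (hlt z hz)
    rw [H82L.norm_mob (hlt p hp)] at h1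
    rw [norm_div]
    exact h1.le

end

end Pool.Agent.Lib.MP_6ff8d9_an.P69
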