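import Pool.Agent.Lib.MP_6ff8d9_an_h69.Rows
import Pool.Agent.Lib.K708.HolAn

/-!
# Row LOCF: a dependent function is locally a function of `F`
-/

open Metric Filter Topology Set
open scoped ContDiff

namespace Pool.Agent.Lib.MP_6ff8d9_an.P69

open Pool.Agent.Lib.MP_6ff8d9_an Pool.Agent.Lib.MP_6ff8d9_an.H11

noncomputable section

variable {n : ℕ}

theorem locf : LOCF := by
  intro n F k z0 hF hk hD hz0 hne
  set L : Cn n →L[ℂ] ℂ := fderiv ℂ F z0 with hL
  obtain ⟨e, he⟩ : ∃ e, L e ≠ 0 := by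
    by_contra h
    push Not at h
    exact hne (ContinuousLinearMap.ext (by simpa using h))
  set c : ℂ := L e with hc
  have hball : ball (0 : Cn n) 1 ∈ 𝓝 z0 := isOpen_ball.mem_nhds hz0
  have hFω : ContDiffOn ℂ ω F (ball 0 1) := Pool.Agent.K708.holo_omega isOpen_ball hF
  have hF1 : ContDiffAt ℂ 1 F z0 := ((hFω.contDiffAt hball).of_le (by simp))
  have hFd : HasFDerivAt F L z0 := (hF.differentiableAt hball).hasFDerivAt
  let Ψ : Cn n → Cn n := fun z => z + ((F z - F z0 - L (z - z0)) / c) • e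
  have hΨ0 : Ψ z0 = z0 := by
    show z0 + ((F z0 - F z0 - L (z0 - z0)) / c) • e = z0
    rw [sub_self, sub_self, map_zero, sub_zero, zero_div, zero_smul, add_zero]
  have hLΨ : ∀ z, L (Ψ z - z0) = F z - F z0 := by
    intro z
    show L (z + ((F z - F z0 - L (z - z0)) / c) • e - z0) = _
    have h1 : z + ((F z - F z0 - L (z - z0)) / c) • e - z0 =
        (z - z0) + ((F z - F z0 - L (z - z0)) / c) • e := by abel
    rw [h1, map_add, map_smul, smul_eq_mul, ← hc, div_mul_cancel₀ _ he]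
    ring
  have hΨc : ContDiffAt ℂ 1 Ψ z0 := by
    have h1 : ContDiffAt ℂ 1 (fun z => (F z - F z0 - L (z - z0)) / c) z0 := by
      have h2 : ContDiffAt ℂ 1 (fun z => F z - F z0 - L (z - z0)) z0 :=
        (hF1.sub contDiffAt_const).sub
          (L.contDiff.contDiffAt.comp z0 (contDiffAt_id.sub contDiffAt_const))
      exact h2.div_const c
    exact contDiffAt_id.add (h1.smul contDiffAt_const)
  have hΨd : HasFDerivAt Ψ ((ContinuousLinearEquiv.refl ℂ (Cn n) : Cn n ≃L[ℂ] Cn n) :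
      Cn n →L[ℂ] Cn n) z0 := by
    have h1 : HasFDerivAt (fun z => F z - F z0 - L (z - z0)) (L - L) z0 := by
      have h2 : HasFDerivAt (fun z : Cn n => L (z - z0)) L z0 := by
        have h3 := L.hasFDerivAt.comp z0 ((hasFDerivAt_id z0).sub_const z0)
        rwa [ContinuousLinearMap.comp_id] at h3
      exact (hFd.sub_const (F z0)).sub h2
    rw [sub_self] at h1
    have h4 : HasFDerivAt (fun z => ((F z - F z0 - L (z - z0)) / c) • e)
        (0 : Cn n →L[ℂ] Cn n) z0 := by
      have h5 := (h1.mul_const (c⁻¹)).smul_const e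
      have h6 : ((c⁻¹ • (0 : Cn n →L[ℂ] ℂ)).smulRight e) = 0 := by
        ext v
        simp
      rw [h6] at h5
      have h7 : (fun z => ((F z - F z0 - L (z - z0)) / c) • e) =
          fun z => ((F z - F z0 - L (z - z0)) * c⁻¹) • e := by
        funext z
        rw [div_eq_mul_inv]
      rw [h7]
      exact h5
    have h8 := (hasFDerivAt_id (𝕜 := ℂ) z0).add h4
    rw [add_zero] at h8
    exact h8
  let Φ : Cn n → Cn n := hΨc.localInverse hΨd one_ne_zero
  have hΦ0 : Φ z0 = z0 := by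
    have h1 : hΨc.localInverse hΨd one_ne_zero (Ψ z0) = z0 :=
      ContDiffAt.localInverse_apply_image hΨc hΨd one_ne_zero
    rwa [hΨ0] at h1
  have hΦc : ContDiffAt ℂ 1 Φ z0 := by
    have h1 := hΨc.to_localInverse hΨd one_ne_zero
    rwa [hΨ0] at h1
  have hright : ∀ᶠ y in 𝓝 z0, Ψ (Φ y) = y := by
    have h1 := (hΨc.hasStrictFDerivAt' hΨd one_ne_zero).eventually_right_inverse
    rwa [hΨ0] at h1
  have hleft : ∀ᶠ z in 𝓝 z0, Φ (Ψ z) = z :=
    (hΨc.hasStrictFDerivAt' hΨd one_ne_zero).eventually_left_inverse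
  have hΦdiff : ∀ᶠ y in 𝓝 z0, DifferentiableAt ℂ Φ y := by
    have h1 := hΦc.eventually (by simp)
    filter_upwards [h1] with y hy
    exact hy.differentiableAt (by simp)
  have hfd : ContinuousAt (fderiv ℂ F) z0 := by
    have h1 : ContDiffOn ℂ 1 (fderiv ℂ F) (ball 0 1) :=
      hFω.fderiv_of_isOpen isOpen_ball (by simp)
    exact h1.continuousOn.continuousAt hball
  have hΦin : ∀ᶠ y in 𝓝 z0, Φ y ∈ ball (0 : Cn n) 1 ∧ fderiv ℂ F (Φ y) ≠ 0 := by
    have h1 : ∀ᶠ z in 𝓝 z0, z ∈ ball (0 : Cn n) 1 ∧ fderiv ℂ F z ≠ 0 :=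
      (show ∀ᶠ z in 𝓝 z0, z ∈ ball (0 : Cn n) 1 from hball).and (hfd.eventually_ne hne)
    have h2 : Tendsto Φ (𝓝 z0) (𝓝 z0) := by
      have h3 := hΦc.continuousAt.tendsto
      rwa [hΦ0] at h3
    exact h2.eventually h1
  obtain ⟨r, hr, hrb⟩ := Metric.eventually_nhds_iff_ball.1
    (hright.and (hΦdiff.and hΦin))
  -- `F ∘ Φ` is affine on the ball
  have hFΦ : ∀ y ∈ ball z0 r, F (Φ y) = F z0 + L (y - z0) := by
    intro y hy
    have h1 := hLΨ (Φ y)
    rw [(hrb y hy).1] at h1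
    rw [h1]
    ring
  have hkd : ∀ y ∈ ball z0 r, HasFDerivAt (fun y => k (Φ y))
      ((fderiv ℂ k (Φ y)).comp (fderiv ℂ Φ y)) y := by
    intro y hy
    have h1 := (hrb y hy).2
    have h2 : DifferentiableAt ℂ k (Φ y) :=
      hk.differentiableAt (isOpen_ball.mem_nhds h1.2.1)
    exact h2.hasFDerivAt.comp y h1.1.hasFDerivAt
  have hker : ∀ y ∈ ball z0 r, ∀ v, L v = 0 →
      ((fderiv ℂ k (Φ y)).comp (fderiv ℂ Φ y)) v = 0 := by
    intro y hy v hv
    have h1 := (hrb y hy).2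
    have h2 : HasFDerivAt F (fderiv ℂ F (Φ y)) (Φ y) :=
      (hF.differentiableAt (isOpen_ball.mem_nhds h1.2.1)).hasFDerivAt
    have h3 : HasFDerivAt (fun y => F (Φ y)) ((fderiv ℂ F (Φ y)).comp (fderiv ℂ Φ y)) y :=
      h2.comp y h1.1.hasFDerivAt
    have h4 : HasFDerivAt (fun y => F (Φ y)) L y := by
      have h5 : HasFDerivAt (fun y => F z0 + L (y - z0)) L y := by
        have h6 := (L.hasFDerivAt.comp y ((hasFDerivAt_id y).sub_const z0)).const_add (F z0)
        rwa [ContinuousLinearMap.comp_id] at h6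
      refine h5.congr_of_eventuallyEq ?_
      filter_upwards [isOpen_ball.mem_nhds hy] with y' hy'
      exact hFΦ y' hy'
    have h7 := h3.unique h4
    have h8 : fderiv ℂ F (Φ y) (fderiv ℂ Φ y v) = 0 := by
      have h9 := DFunLike.congr_fun h7 v
      rw [ContinuousLinearMap.comp_apply, hv] at h9
      exact h9
    obtain ⟨u, hu⟩ : ∃ u, fderiv ℂ F (Φ y) u ≠ 0 := by
      by_contra h
      push Not at h
      exact h1.2.2 (ContinuousLinearMap.ext (by simpa using h))
    have h10 := hD (Φ y) h1.2.1 u (fderiv ℂ Φ y v)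
    rw [h8, zero_mul] at h10
    rw [ContinuousLinearMap.comp_apply]
    exact (mul_eq_zero.1 h10).resolve_left hu
  have hconst : ∀ y ∈ ball z0 r, ∀ y' ∈ ball z0 r, L (y' - y) = 0 → k (Φ y') = k (Φ y) := by
    intro y hy y' hy' hv
    have hseg : ∀ s ∈ Icc (0 : ℝ) 1, y + s • (y' - y) ∈ ball z0 r := by
      intro s hs
      have h1 := (convex_ball z0 r) hy hy' (sub_nonneg.2 hs.2) hs.1 (by ring)
      have h2 : (1 - s) • y + s • y' = y + s • (y' - y) := by
        rw [smul_sub, sub_smul, one_smul]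
        abel
      rwa [h2] at h1
    have hder : ∀ s ∈ Icc (0 : ℝ) 1,
        HasDerivAt (fun s : ℝ => k (Φ (y + s • (y' - y)))) 0 s := by
      intro s hs
      have h1 := hkd _ (hseg s hs)
      have h2 : HasDerivAt (fun s : ℝ => y + s • (y' - y)) (y' - y) s := by
        have h3 := ((hasDerivAt_id s).smul_const (y' - y)).const_add y
        simpa using h3
      have h4 := (h1.restrictScalars ℝ).comp_hasDerivAt s h2
      have h5 := hker _ (hseg s hs) _ hv
      rw [ContinuousLinearMap.coe_restrictScalars', h5] at h4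
      exact h4
    have h1 := constant_of_has_deriv_right_zero
      (f := fun s : ℝ => k (Φ (y + s • (y' - y)))) (a := 0) (b := 1)
      (fun s hs => (hder s hs).continuousAt.continuousWithinAt)
      (fun s hs => (hder s ⟨hs.1, hs.2.le⟩).hasDerivWithinAt) 1 ⟨zero_le_one, le_rfl⟩
    simpa using h1
  -- the function of one variable
  let ℓ : ℂ → Cn n := fun w => z0 + ((w - F z0) / c) • e
  have hℓd : Differentiable ℂ ℓ := by
    intro w
    exact (((differentiableAt_id.sub_const _).div_const c).smul_const e).const_add z0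
  have hℓ0 : ℓ (F z0) = z0 := by
    show z0 + ((F z0 - F z0) / c) • e = z0
    rw [sub_self, zero_div, zero_smul, add_zero]
  have hLℓ : ∀ w, L (ℓ w - z0) = w - F z0 := by
    intro w
    show L (z0 + ((w - F z0) / c) • e - z0) = _
    rw [add_sub_cancel_left, map_smul, smul_eq_mul, ← hc, div_mul_cancel₀ _ he]
  have hev : ∀ᶠ w in 𝓝 (F z0), ℓ w ∈ ball z0 r := by
    have h1 : ContinuousAt ℓ (F z0) := (hℓd _).continuousAt
    refine h1.eventually_mem ?_
    rw [hℓ0]
    exact ball_mem_nhds _ hr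
  obtain ⟨ε, hε, hεb⟩ := Metric.eventually_nhds_iff_ball.1 hev
  refine ⟨ε, hε, fun w => k (Φ (ℓ w)), ?_, ?_⟩
  · intro w hw
    exact ((hkd _ (hεb w hw)).differentiableAt.comp w (hℓd w)).differentiableWithinAt
  · have h1 : ∀ᶠ z in 𝓝 z0, Ψ z ∈ ball z0 r := by
      have h2 : ContinuousAt Ψ z0 := hΨc.continuousAt
      refine h2.eventually_mem ?_
      rw [hΨ0]
      exact ball_mem_nhds _ hr
    have h2 : ∀ᶠ z in 𝓝 z0, F z ∈ ball (F z0) ε :=
      hFd.continuousAt.eventually_mem (ball_mem_nhds _ hε)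
    filter_upwards [h1, h2, hleft] with z hz1 hz2 hz3
    have h3 := hconst (ℓ (F z)) (hεb _ hz2) (Ψ z) hz1 (by
      have h4 : Ψ z - ℓ (F z) = (Ψ z - z0) - (ℓ (F z) - z0) := by abel
      rw [h4, map_sub, hLΨ, hLℓ, sub_self])
    rw [hz3] at h3
    exact h3

end

end Pool.Agent.Lib.MP_6ff8d9_an.P69
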