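import Pool.Agent.Lib.MP_6ff8d9_an_h69.Rows

/-!
# MP_6ff8d9 IRREDUCIBLE rows: irreducible functions (Forelli 1979) are prime

Text: `r6_irr_h69.md` of the team store.
-/

open Metric Filter Topology InnerProductSpace Real
open scoped ComplexConjugate

namespace Pool.Agent.Lib.MP_6ff8d9_an.P69

open Pool.Agent.Lib.MP_6ff8d9_an Pool.Agent.Lib.MP_6ff8d9_an.H11

noncomputable section

variable {n : ℕ}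

/-- `F` is irreducible: in every factorisation `F = w H` with `|w|, |H| ≤ 1` one of the factors is
constant -/
def Irr1 (n : ℕ) (F : Cn n → ℂ) : Prop := ∀ w H : Cn n → ℂ, DifferentiableOn ℂ w (ball 0 1) →
  DifferentiableOn ℂ H (ball 0 1) →
  (∀ z ∈ ball (0 : Cn n) 1, ‖w z‖ ≤ 1 ∧ ‖H z‖ ≤ 1 ∧ F z = w z * H z) →
  (∀ z ∈ ball (0 : Cn n) 1, w z = w 0) ∨ (∀ z ∈ ball (0 : Cn n) 1, H z = H 0)

/-- I1: the Green function of one sheet, with a lower bound by a second function `φ` which is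
locally a function of `F` and invariant (given PERRE, SECT) -/
def GREEN2 : Prop := ∀ (n : ℕ) (F φ : Cn n → ℂ) (O : Set (Cn n)) (E : Cn n → Cn n → Prop),
  Rel n F O E → (∀ z ∈ O, ‖F z‖ < 1) → (∀ z ∈ O, ‖φ z‖ ≤ 1) →
  (∀ z ∈ O, ∀ z' ∈ O, E z z' → φ z = φ z') →
  (∀ z0 ∈ O, ∃ ε : ℝ, 0 < ε ∧ ∃ κ : ℂ → ℂ, DifferentiableOn ℂ κ (ball (F z0) ε) ∧
    ∀ᶠ z in 𝓝 z0, φ z = κ (F z)) →
  ∀ z1 ∈ O, φ z1 = 0 →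
  ∃ (v : Cn n → ℝ) (T : Set (Cn n)) (C ρ : ℝ), 0 < ρ ∧
    T ⊆ {z | z ∈ O ∧ F z ∈ ball (F z1) ρ} ∧ IsOpen T ∧
    IsOpen ({z | z ∈ O ∧ F z ∈ ball (F z1) ρ} \ T) ∧ z1 ∈ T ∧
    (∀ z2 ∈ O, F z2 = F z1 → ¬ E z1 z2 → z2 ∉ T) ∧
    ∀ z ∈ O, F z ≠ F z1 →
      (∃ ε : ℝ, 0 < ε ∧ ∃ U : ℂ → ℝ, HarmonicOnNhd U (ball (F z) ε) ∧
        ∀ᶠ y in 𝓝 z, v y = U (F y)) ∧
      0 ≤ v z ∧ v z ≤ qf (F z1) F z ∧ (φ z ≠ 0 → v z ≤ -Real.log ‖φ z‖) ∧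
      (z ∈ T → qf (F z1) F z - C ≤ v z) ∧ (z ∉ T → v z ≤ C)

/-- I2: the factorisation attached to one sheet (given GREEN2, LOCF, EXLOC, CONN, DENS, MULT,
RIEM) -/
def FACT2 : Prop := ∀ (n : ℕ) (F φ : Cn n → ℂ) (e : Cn n) (E : Cn n → Cn n → Prop), Hol n F →
  Rel n F (Oe F e) E → DifferentiableOn ℂ φ (ball 0 1) → Dep F φ →
  (∀ z ∈ ball (0 : Cn n) 1, ‖φ z‖ ≤ 1) →
  (∀ z ∈ Oe F e, ∀ z' ∈ Oe F e, E z z' → φ z = φ z') →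
  ∀ z1 ∈ Oe F e, φ z1 = 0 →
  ∃ w H : Cn n → ℂ, DifferentiableOn ℂ w (ball 0 1) ∧ DifferentiableOn ℂ H (ball 0 1) ∧
    (∀ z ∈ ball (0 : Cn n) 1, ‖w z‖ ≤ 1 ∧ ‖H z‖ ≤ 1 ∧ mob (F z1) (F z) = w z * H z) ∧
    Dep F w ∧ (∀ z ∈ ball (0 : Cn n) 1, ‖φ z‖ ≤ ‖w z‖) ∧ w z1 = 0 ∧ H z1 ≠ 0 ∧
    ∀ z2 ∈ Oe F e, F z2 = F z1 → ¬ E z1 z2 → w z2 ≠ 0

/-- I3: limits along ultrafilters of bounded holomorphic functions -/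
def MONT : Prop := ∀ (n : ℕ) (u : Ultrafilter ℕ) (G : ℕ → Cn n → ℂ),
  (∀ j, DifferentiableOn ℂ (G j) (ball 0 1)) → (∀ j, ∀ z ∈ ball (0 : Cn n) 1, ‖G j z‖ ≤ 1) →
  ∃ G' : Cn n → ℂ, DifferentiableOn ℂ G' (ball 0 1) ∧
    ∀ z ∈ ball (0 : Cn n) 1,
      Tendsto (fun p : ℕ × Cn n => G p.1 p.2) ((u : Filter ℕ) ×ˢ 𝓝 z) (𝓝 (G' z))

/-- I4: a dependent function which vanishes at the origin is smaller than an irreducible one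
(given FACT2, MONT, KREL, DENS) -/
def CLAIM1 : Prop := ∀ (n : ℕ) (F φ : Cn n → ℂ), Hol n F → F 0 = 0 →
  (∃ z ∈ ball (0 : Cn n) 1, F z ≠ 0) → Irr1 n F → DifferentiableOn ℂ φ (ball 0 1) → Dep F φ →
  (∀ z ∈ ball (0 : Cn n) 1, ‖φ z‖ ≤ 1) → φ 0 = 0 → ∀ z ∈ ball (0 : Cn n) 1, ‖φ z‖ ≤ ‖F z‖

/-- I5: an irreducible function takes all the values of the disc (given CLAIM1) -/
def IRRSURJ : Prop := ∀ (n : ℕ) (F : Cn n → ℂ), Hol n F → F 0 = 0 →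
  (∃ z ∈ ball (0 : Cn n) 1, F z ≠ 0) → Irr1 n F →
  ∀ w0 ∈ ball (0 : ℂ) 1, ∃ z ∈ ball (0 : Cn n) 1, F z = w0

/-- I6: irreducible functions are prime (given FACT2, CLAIM1, IRRSURJ, KREL, KOF) -/
def IRRPRIME : Prop := ∀ (n : ℕ) (F : Cn n → ℂ), Hol n F → F 0 = 0 →
  (∃ z ∈ ball (0 : Cn n) 1, F z ≠ 0) → Irr1 n F → PrimeF n F

end

end Pool.Agent.Lib.MP_6ff8d9_an.P69
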