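import Pool.Agent.Lib.MP_6ff8d9_an_h69.Krel
import Pool.Agent.Lib.MP_6ff8d9_an_h22.Prime
import Pool.Agent.Lib.MP_6ff8d9_an_h11.Sitr

/-!
# Theorem G: extreme points are prime (assembly), and the form for rational functions
-/

open Metric Filter Topology Set MvPolynomial

namespace Pool.Agent.Lib.MP_6ff8d9_an.P69

open Pool.Agent.Lib.MP_6ff8d9_an Pool.Agent.Lib.MP_6ff8d9_an.H11

noncomputable section

variable {n : ℕ}

theorem thmg_of (hL : LOCF) (hFa : FACT) (hI : IRR) (hSu : SURJ) (hK : KOF) : THMG := by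
  intro n F hn hF hF0 hex
  have hsurj := hSu n F hn hF hF0 hex
  have h0B : (0 : Cn n) ∈ ball (0 : Cn n) 1 := mem_ball_self one_pos
  obtain ⟨e, hne⟩ : ∃ e, (Oe F e).Nonempty := by
    by_contra hcon
    push Not at hcon
    have hz : EqOn (fderiv ℂ F) 0 (ball (0 : Cn n) 1) := by
      intro z hz
      refine ContinuousLinearMap.ext fun e => ?_
      by_contra h
      have h1 : z ∈ Oe F e := ⟨hz, h⟩
      rw [hcon e] at h1
      exact h1
    obtain ⟨z, hzb, hzF⟩ := hsurj (1 / 2) (by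
      rw [mem_ball_zero_iff]
      norm_num)
    have h1 : F z = F 0 := isOpen_ball.is_const_of_fderiv_eq_zero
      (convex_ball (0 : Cn n) 1).isPreconnected hF.an hz hzb h0B
    rw [hzF, hF0] at h1
    norm_num at h1
  intro k hk hD
  have hR := krel hL n F k e hF.an hk hD
  have hE : ∀ z1 ∈ Oe F e, ∀ z2 ∈ Oe F e, F z1 = F z2 → Ek F k z1 z2 := by
    intro z1 h1 z2 h2 h12
    by_contra hnE
    obtain ⟨w, H, hw, hH, hb, hw1, hw2, hH1⟩ := hFa n F e _ hF hR z1 h1 z2 h2 h12 hnE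
    rcases hI n F (F z1) w H hF hF0 hex (hF.lt z1 h1.1) hw hH hb with h | h
    · apply hw2
      rw [h z2 h2.1, ← h z1 h1.1, hw1]
    · have h3 := (hb z2 h2.1).2.2
      have h4 : mob (F z1) (F z2) = 0 := by
        unfold mob
        rw [← h12, sub_self, zero_div, mul_zero]
      rw [h4] at h3
      rcases mul_eq_zero.1 h3.symm with h5 | h5
      · exact hw2 h5
      · apply hH1
        rw [h z1 h1.1, ← h z2 h2.1, h5]
  exact hK n F k e hF hk hsurj hne fun z hz z' hz' hzz =>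
    (hE z hz z' hz' hzz).2.self_of_nhds hzz

/-- the function `P/Q` of an admissible pair -/
lemma hol_fF {P Q : MvPolynomial (Fin n) ℂ} (hA : H22.Adm0 P Q) :
    Hol n (fF P Q) ∧ fF P Q 0 = 0 ∧
      (∀ z ∈ ball (0 : Cn n) 1, eval (toFun n z) Q ≠ 0) ∧
      ∀ z ∈ ball (0 : Cn n) 1, H22.gPQ P Q z = gf (fF P Q) z := by
  have hlt : ∀ z ∈ ball (0 : Cn n) 1, ‖eval (toFun n z) P‖ < ‖eval (toFun n z) Q‖ := by
    intro z hz
    refine hA.lt _ ?_
    have := sum_sq z
    simp only [toFun_apply]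
    rw [this]
    have hz' : ‖z‖ < 1 := by simpa using hz
    nlinarith [norm_nonneg z]
  have hq : ∀ z ∈ ball (0 : Cn n) 1, eval (toFun n z) Q ≠ 0 := fun z hz =>
    norm_pos_iff.1 ((norm_nonneg _).trans_lt (hlt z hz))
  have hl : ∀ z ∈ ball (0 : Cn n) 1, ‖fF P Q z‖ < 1 := by
    intro z hz
    show ‖eval (toFun n z) P / eval (toFun n z) Q‖ < 1
    rw [norm_div, div_lt_one (norm_pos_iff.2 (hq z hz))]
    exact hlt z hz
  refine ⟨⟨fun z hz => (differentiableAt_fF P Q z (hq z hz)).differentiableWithinAt, hl⟩, ?_, hq, ?_⟩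
  · show eval (toFun n 0) P / eval (toFun n 0) Q = 0
    rw [map_zero, hA.zero, zero_div]
  · intro z hz
    have h1 : fF P Q z = eval (fun i => z i) P / eval (fun i => z i) Q := rfl
    have hqz : eval (fun i => z i) Q ≠ 0 := hq z hz
    rw [H22.gPQ, gf, h1]
    have h2 : eval (fun i => z i) Q - eval (fun i => z i) P ≠ 0 := by
      intro h0
      have h3 := hlt z hz
      have h4 : eval (toFun n z) Q = eval (toFun n z) P := sub_eq_zero.1 h0
      rw [h4] at h3
      exact lt_irrefl _ h3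
    field_simp

/-- extremality depends only on the values on the ball -/
lemma extreme_congr {g g' : Cn n → ℂ} (heq : ∀ z ∈ ball (0 : Cn n) 1, g z = g' z)
    (hE : IsExtremePoint n g) : IsExtremePoint n g' := by
  obtain ⟨⟨hd, hp, h0⟩, hext⟩ := hE
  refine ⟨⟨hd.congr fun z hz => (heq z hz).symm, fun z hz => by rw [← heq z hz]; exact hp z hz,
    by rw [← heq 0 (mem_ball_self one_pos)]; exact h0⟩, ?_⟩
  intro g1 hg1 g2 hg2 t ht0 ht1 hsum
  exact hext g1 hg1 g2 hg2 t ht0 ht1 (fun z hz => by rw [heq z hz]; exact hsum z hz)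

/-- rational extreme points are prime -/
theorem prm_of_thmg (hG : THMG) {P Q : MvPolynomial (Fin n) ℂ} (hn : 1 ≤ n)
    (hex : IsExtremePoint n (H22.gPQ P Q)) : H22.Prm P Q := by
  have hA : H22.Adm0 P Q := (H20R.adm n P Q hn hex.1).1
  obtain ⟨hF, hF0, hq, hgeq⟩ := hol_fF hA
  have hex' : IsExtremePoint n (gf (fF P Q)) := extreme_congr hgeq hex
  have hmem : ∀ z : Cn n, z ∈ ball (0 : Cn n) 1 → toFun n z ∈ H22.Bn n := by
    intro z hz
    show ∑ i, ‖toFun n z i‖ ^ 2 < 1
    simp only [toFun_apply]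
    rw [sum_sq z]
    have hz' : ‖z‖ < 1 := by simpa using hz
    nlinarith [norm_nonneg z]
  have hBo : IsOpen (H22.Bn n) := by
    have : Continuous fun z : Fin n → ℂ => ∑ i, ‖z i‖ ^ 2 := by fun_prop
    exact isOpen_lt this continuous_const
  intro k hk hW
  have hkd : ∀ z ∈ ball (0 : Cn n) 1, HasFDerivAt (fun z : Cn n => k (toFun n z))
      ((fderiv ℂ k (toFun n z)).comp (toFun n)) z := by
    intro z hz
    have h1 : DifferentiableAt ℂ k (toFun n z) := hk.differentiableAt (hBo.mem_nhds (hmem z hz))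
    exact h1.hasFDerivAt.comp z (toFun n).hasFDerivAt
  have hD : Dep (fF P Q) (fun z : Cn n => k (toFun n z)) := by
    intro z hz v v'
    rw [(hkd z hz).fderiv, fderiv_fF P Q z v (hq z hz), fderiv_fF P Q z v' (hq z hz),
      ContinuousLinearMap.comp_apply, ContinuousLinearMap.comp_apply,
      H22.Poinc.apply_eq_sum, H22.Poinc.apply_eq_sum, Finset.sum_mul_sum, Finset.sum_mul_sum,
      Finset.sum_comm]
    refine Finset.sum_congr rfl fun i _ => Finset.sum_congr rfl fun j _ => ?_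
    have h1 := hW (toFun n z) (hmem z hz) i j
    rw [toFun_apply, toFun_apply]
    have h2 : eval (toFun n z) Q ≠ 0 := hq z hz
    field_simp
    linear_combination (v j * v' i) * h1
  obtain ⟨K, hK, hKe⟩ := hG n (fF P Q) hn hF hF0 hex' _
    (fun z hz => (hkd z hz).differentiableAt.differentiableWithinAt) hD
  refine ⟨K, hK, fun z hz => ?_⟩
  have hz' : (WithLp.toLp 2 z : Cn n) ∈ ball (0 : Cn n) 1 := by
    rw [mem_ball_zero_iff]
    have h1 := sum_sq (WithLp.toLp 2 z : Cn n)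
    have h2 : ∑ i, ‖z i‖ ^ 2 < 1 := hz
    have h3 : ‖(WithLp.toLp 2 z : Cn n)‖ ^ 2 < 1 := by rw [← h1]; exact h2
    nlinarith [norm_nonneg (WithLp.toLp 2 z : Cn n)]
  exact hKe _ hz'

end

end Pool.Agent.Lib.MP_6ff8d9_an.P69
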