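import Pool.Agent.Lib.MP_6ff8d9_an_h69.Rows
import Pool.Agent.Lib.MP_6ff8d9_an_h82.Green

/-!
# Row IRR: every Moebius transform of an extreme point is irreducible
-/

open Metric Filter Topology Set
open scoped ComplexConjugate

namespace Pool.Agent.Lib.MP_6ff8d9_an.P69

open Pool.Agent.Lib.MP_6ff8d9_an Pool.Agent.Lib.MP_6ff8d9_an.H11

noncomputable section

variable {n : ℕ}

lemma half_le {a : ℂ} (ha : ‖a‖ ≤ 1) (h1 : a ≠ 1) : 1 / 2 ≤ ((1 - a)⁻¹).re := by
  have hne : (1 : ℂ) - a ≠ 0 := sub_ne_zero.2 (Ne.symm h1)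
  have hpos : 0 < Complex.normSq (1 - a) := Complex.normSq_pos.2 hne
  rw [Complex.inv_re, le_div_iff₀ hpos]
  have h2 : ‖a‖ ^ 2 ≤ 1 := by nlinarith [norm_nonneg a]
  rw [Complex.sq_norm, Complex.normSq_apply] at h2
  rw [Complex.normSq_apply]
  simp only [Complex.sub_re, Complex.one_re, Complex.sub_im, Complex.one_im]
  nlinarith

/-- the pointwise inequality -/
lemma pw {a b : ℂ} (ha : ‖a‖ ≤ 1) (hb : ‖b‖ ≤ 1) (hab : a * b ≠ 1) :
    ((a + b) / (1 - a * b)).re ≤ ((1 + a * b) / (1 - a * b)).re := by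
  have hne : (1 : ℂ) - a * b ≠ 0 := sub_ne_zero.2 (Ne.symm hab)
  have h0 : (1 + a * b) / (1 - a * b) - (a + b) / (1 - a * b) =
      (1 - a) * (1 - b) / (1 - a * b) := by
    rw [← sub_div]
    congr 1
    ring
  have h1 : 0 ≤ ((1 - a) * (1 - b) / (1 - a * b)).re := by
    by_cases ha1 : a = 1
    · rw [ha1]; simp
    by_cases hb1 : b = 1
    · rw [hb1]; simp
    have ha' : (1 : ℂ) - a ≠ 0 := sub_ne_zero.2 (Ne.symm ha1)
    have hb' : (1 : ℂ) - b ≠ 0 := sub_ne_zero.2 (Ne.symm hb1)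
    have h2 : (1 - a) * (1 - b) / (1 - a * b) = ((1 - a)⁻¹ + (1 - b)⁻¹ - 1)⁻¹ := by
      have h3 : (1 - a)⁻¹ + (1 - b)⁻¹ - 1 = (1 - a * b) / ((1 - a) * (1 - b)) := by
        field_simp
        ring
      rw [h3, inv_div]
    rw [h2, Complex.inv_re]
    refine div_nonneg ?_ (Complex.normSq_nonneg _)
    have h4 := half_le ha ha1
    have h5 := half_le hb hb1
    rw [Complex.sub_re, Complex.add_re, Complex.one_re]
    linarith
  rw [← h0, Complex.sub_re] at h1
  linarith

/-- a dominated function vanishes -/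
lemma ext0 {g k : Cn n → ℂ} (hE : IsExtremePoint n g) (hk : DifferentiableOn ℂ k (ball 0 1))
    (hk0 : k 0 = 0) {C : ℝ} (hb : ∀ z ∈ ball (0 : Cn n) 1, |(k z).re| ≤ C * (g z).re) :
    ∀ z ∈ ball (0 : Cn n) 1, k z = 0 := by
  obtain ⟨⟨hd, hp, h0⟩, hext⟩ := hE
  set D : ℝ := 2 * (|C| + 1) with hD
  have hDpos : 0 < D := by positivity
  have hkey : ∀ s : ℝ, |s| = 1 / D → (fun z => g z + s * k z) ∈ NB n := by
    intro s hs
    refine ⟨hd.add (hk.const_mul _), ?_, ?_⟩
    · intro z hz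
      have h1 := hp z hz
      have h2 := hb z hz
      have h3 : (g z + (s : ℂ) * k z).re = (g z).re + s * (k z).re := by simp
      change 0 < (g z + (s : ℂ) * k z).re
      rw [h3]
      have h4 : |s * (k z).re| ≤ 1 / D * ((|C| + 1) * (g z).re) := by
        rw [abs_mul, hs]
        refine mul_le_mul_of_nonneg_left (h2.trans ?_) (by positivity)
        exact mul_le_mul_of_nonneg_right ((le_abs_self C).trans (by linarith)) h1.le
      have h5 : 1 / D * ((|C| + 1) * (g z).re) = (g z).re / 2 := by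
        rw [hD]
        have : (|C| + 1) ≠ 0 := by positivity
        field_simp
      rw [h5] at h4
      have h6 := (abs_le.1 h4).1
      linarith
    · show g 0 + (s : ℂ) * k 0 = 1
      rw [h0, hk0, mul_zero, add_zero]
  have h1 := hkey (1 / D) (abs_of_pos (by positivity))
  have h2 := hkey (-(1 / D)) (by rw [abs_neg, abs_of_pos (by positivity)])
  intro z hz
  have h3 := hext _ h1 _ h2 (1 / 2) (by norm_num) (by norm_num) (by
    intro z _
    push_cast
    ring) z hz
  have h4 : (2 / D : ℂ) * k z = 0 := by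
    have h5 : g z + ((1 / D : ℝ) : ℂ) * k z = g z + ((-(1 / D) : ℝ) : ℂ) * k z := h3
    push_cast at h5
    linear_combination h5
  rcases mul_eq_zero.1 h4 with h | h
  · exfalso
    have h6 : (D : ℂ) ≠ 0 := by exact_mod_cast hDpos.ne'
    exact (div_ne_zero two_ne_zero h6) h
  · exact h

/-- the Cayley transform of the Moebius transform -/
lemma cay_mob {w0 x : ℂ} (h0 : ‖w0‖ < 1) (hx : ‖x‖ < 1) :
    (1 + mob w0 x) / (1 - mob w0 x) =
      ((‖1 - w0‖ ^ 2 / (1 - ‖w0‖ ^ 2) : ℝ) : ℂ) * ((1 + x) / (1 - x)) +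
      ((((1 - 2 * w0).im) / (1 - ‖w0‖ ^ 2) : ℝ) : ℂ) * Complex.I := by
  have hd : 1 - conj w0 * x ≠ 0 := H82L.den_ne h0 hx
  have h1 : (1 : ℂ) - w0 ≠ 0 := by
    intro h
    rw [← sub_eq_zero.1 h, norm_one] at h0
    exact lt_irrefl _ h0
  have h2 : (1 : ℂ) - x ≠ 0 := by
    intro h
    rw [← sub_eq_zero.1 h, norm_one] at hx
    exact lt_irrefl _ hx
  have hr : (0 : ℝ) < 1 - ‖w0‖ ^ 2 := by nlinarith [norm_nonneg w0]
  have h3 : (1 : ℂ) - w0 * conj w0 ≠ 0 := by
    have h4 : w0 * conj w0 = ((‖w0‖ ^ 2 : ℝ) : ℂ) := by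
      rw [Complex.mul_conj, Complex.normSq_eq_norm_sq]
    rw [h4]
    have h5 : ((1 - ‖w0‖ ^ 2 : ℝ) : ℂ) ≠ 0 := by exact_mod_cast hr.ne'
    push_cast at h5 ⊢
    exact h5
  have e1 : (1 : ℂ) - mob w0 x = (1 - w0 * conj w0) * (1 - x) / ((1 - w0) * (1 - conj w0 * x)) := by
    unfold mob
    field_simp
    ring
  have e2 : (1 : ℂ) + mob w0 x = ((1 - 2 * w0 + w0 * conj w0) +
      (1 - 2 * conj w0 + w0 * conj w0) * x) / ((1 - w0) * (1 - conj w0 * x)) := by
    unfold mob
    field_simp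
    ring
  have e3 : ((‖1 - w0‖ ^ 2 / (1 - ‖w0‖ ^ 2) : ℝ) : ℂ) =
      ((1 - w0) * (1 - conj w0)) / (1 - w0 * conj w0) := by
    push_cast
    have h4 : ((‖w0‖ : ℂ)) ^ 2 = w0 * conj w0 := by
      rw [Complex.mul_conj, Complex.normSq_eq_norm_sq]
      push_cast
      rfl
    have h5 : ((‖1 - w0‖ : ℂ)) ^ 2 = (1 - w0) * (1 - conj w0) := by
      have h6 : (1 : ℂ) - conj w0 = conj (1 - w0) := by rw [map_sub, map_one]
      rw [h6, Complex.mul_conj, Complex.normSq_eq_norm_sq]
      push_cast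
      rfl
    rw [h4, h5]
  have e4 : ((((1 - 2 * w0).im) / (1 - ‖w0‖ ^ 2) : ℝ) : ℂ) * Complex.I =
      (conj w0 - w0) / (1 - w0 * conj w0) := by
    push_cast
    have h4 : ((‖w0‖ : ℂ)) ^ 2 = w0 * conj w0 := by
      rw [Complex.mul_conj, Complex.normSq_eq_norm_sq]
      push_cast
      rfl
    have h5 : (((1 - 2 * w0).im : ℝ) : ℂ) * Complex.I = conj w0 - w0 := by
      apply Complex.ext
      · simp
      · simp
        ring
    rw [h4, div_mul_eq_mul_div, h5]
  rw [e3, e4, e1, e2]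
  field_simp
  ring

/-- the perturbation is an affine function of the Moebius transform -/
lemma affine {F : Cn n → ℂ} {w0 : ℂ} {w H : Cn n → ℂ} (hF : Hol n F)
    (hE : IsExtremePoint n (gf F)) (h0 : ‖w0‖ < 1) (hw : DifferentiableOn ℂ w (ball 0 1))
    (hH : DifferentiableOn ℂ H (ball 0 1))
    (hb : ∀ z ∈ ball (0 : Cn n) 1, ‖w z‖ ≤ 1 ∧ ‖H z‖ ≤ 1 ∧ mob w0 (F z) = w z * H z)
    {α : ℂ} (hα : ‖α‖ = 1) :
    ∃ a : ℂ, ∀ z ∈ ball (0 : Cn n) 1,
      α * H z + conj α * w z = a + conj a * mob w0 (F z) := by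
  have hαα : α * conj α = 1 := by
    rw [Complex.mul_conj, Complex.normSq_eq_norm_sq, hα]
    norm_num
  have h0B : (0 : Cn n) ∈ ball (0 : Cn n) 1 := mem_ball_self one_pos
  have hM : ∀ z ∈ ball (0 : Cn n) 1, ‖mob w0 (F z)‖ < 1 := fun z hz =>
    H82L.norm_mob_lt h0 (hF.lt z hz)
  have hM1 : ∀ z ∈ ball (0 : Cn n) 1, mob w0 (F z) ≠ 1 := by
    intro z hz h
    have h1 := hM z hz
    rw [h, norm_one] at h1
    exact lt_irrefl _ h1
  have hM2 : ∀ z ∈ ball (0 : Cn n) 1, (1 : ℂ) - mob w0 (F z) ≠ 0 := fun z hz =>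
    sub_ne_zero.2 (hM1 z hz).symm
  have hr : (0 : ℝ) < 1 - ‖w0‖ ^ 2 := by nlinarith [norm_nonneg w0]
  have h1w : (1 : ℂ) - w0 ≠ 0 := by
    intro h
    rw [← sub_eq_zero.1 h, norm_one] at h0
    exact lt_irrefl _ h0
  set c : ℝ := ‖1 - w0‖ ^ 2 / (1 - ‖w0‖ ^ 2) with hc
  have hcpos : 0 < c := by
    have : 0 < ‖1 - w0‖ := norm_pos_iff.2 h1w
    positivity
  set b : ℝ := ((1 - 2 * w0).im) / (1 - ‖w0‖ ^ 2) with hbdef
  have hcay : ∀ z ∈ ball (0 : Cn n) 1, (1 + mob w0 (F z)) / (1 - mob w0 (F z)) =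
      (c : ℂ) * gf F z + (b : ℂ) * Complex.I := fun z hz => cay_mob h0 (hF.lt z hz)
  have hMd : DifferentiableOn ℂ (fun z => mob w0 (F z)) (ball 0 1) := by
    refine (hw.mul hH).congr fun z hz => (hb z hz).2.2
  let T : Cn n → ℂ := fun z => (α * H z + conj α * w z) / (1 - mob w0 (F z))
  have hTd : DifferentiableOn ℂ T (ball 0 1) := by
    have h1 : DifferentiableOn ℂ (fun z => (α * H z + conj α * w z) *
        (1 - mob w0 (F z))⁻¹) (ball (0 : Cn n) 1) :=
      ((hH.const_mul α).fun_add (hw.const_mul (conj α))).fun_mul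
        (((differentiableOn_const (c := (1 : ℂ))).fun_sub hMd).fun_inv hM2)
    exact h1.congr fun z _ => div_eq_mul_inv _ _
  have hTb : ∀ z ∈ ball (0 : Cn n) 1, |(T z).re| ≤ c * (gf F z).re := by
    intro z hz
    have hre : ((1 + mob w0 (F z)) / (1 - mob w0 (F z))).re = c * (gf F z).re := by
      rw [hcay z hz]
      simp
    have hprod : (α * H z) * (conj α * w z) = mob w0 (F z) := by
      rw [(hb z hz).2.2]
      linear_combination (H z * w z) * hαα
    have hprod' : (-(α * H z)) * (-(conj α * w z)) = mob w0 (F z) := by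
      rw [neg_mul_neg, hprod]
    have ha : ‖α * H z‖ ≤ 1 := by
      rw [norm_mul, hα, one_mul]; exact (hb z hz).2.1
    have hb' : ‖conj α * w z‖ ≤ 1 := by
      rw [norm_mul, Complex.norm_conj, hα, one_mul]; exact (hb z hz).1
    have h1 := pw ha hb' (by rw [hprod]; exact hM1 z hz)
    have h2 := pw (a := -(α * H z)) (b := -(conj α * w z)) (by rwa [norm_neg])
      (by rwa [norm_neg]) (by rw [hprod']; exact hM1 z hz)
    rw [hprod, hre] at h1
    rw [hprod', hre] at h2
    have h3 : (-(α * H z) + -(conj α * w z)) / (1 - mob w0 (F z)) = -T z := by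
      show _ = -((α * H z + conj α * w z) / (1 - mob w0 (F z)))
      ring
    rw [h3, Complex.neg_re] at h2
    rw [abs_le]
    constructor
    · linarith
    · exact h1
  set s : ℝ := (T 0).re with hs
  set t : ℝ := (T 0).im with ht
  obtain ⟨⟨hgd, hgp, hg0⟩, -⟩ := id hE
  have hk := ext0 hE (k := fun z => T z - (s : ℂ) * gf F z - (t : ℂ) * Complex.I)
    ((hTd.sub (hgd.const_mul _)).sub (differentiableOn_const _)) (by
      show T 0 - (s : ℂ) * gf F 0 - (t : ℂ) * Complex.I = 0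
      rw [hg0, mul_one]
      have h1 := Complex.re_add_im (T 0)
      rw [← hs, ← ht] at h1
      linear_combination -h1) (C := c + |s|) (by
      intro z hz
      have h1 := hTb z hz
      have h2 : (T z - (s : ℂ) * gf F z - (t : ℂ) * Complex.I).re =
          (T z).re - s * (gf F z).re := by
        simp
      show |(T z - (s : ℂ) * gf F z - (t : ℂ) * Complex.I).re| ≤ _
      rw [h2]
      have h3 : |s * (gf F z).re| ≤ |s| * (gf F z).re := by
        rw [abs_mul, abs_of_pos (hgp z hz)]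
      calc |(T z).re - s * (gf F z).re| ≤ |(T z).re| + |s * (gf F z).re| := abs_sub _ _
        _ ≤ c * (gf F z).re + |s| * (gf F z).re := add_le_add h1 h3
        _ = _ := by ring)
  refine ⟨((s / c : ℝ) : ℂ) + ((t - s * b / c : ℝ) : ℂ) * Complex.I, fun z hz => ?_⟩
  have h1 : T z - (s : ℂ) * gf F z - (t : ℂ) * Complex.I = 0 := hk z hz
  have h2 := hcay z hz
  have hcc : (c : ℂ) ≠ 0 := by exact_mod_cast hcpos.ne'
  have h3 := hM2 z hz
  have h4 : T z * (1 - mob w0 (F z)) = α * H z + conj α * w z := div_mul_cancel₀ _ h3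
  have h5 : (1 + mob w0 (F z)) = ((c : ℂ) * gf F z + (b : ℂ) * Complex.I) *
      (1 - mob w0 (F z)) := by
    rw [← h2, div_mul_cancel₀ _ h3]
  have hconj : conj (((s / c : ℝ) : ℂ) + ((t - s * b / c : ℝ) : ℂ) * Complex.I) =
      ((s / c : ℝ) : ℂ) - ((t - s * b / c : ℝ) : ℂ) * Complex.I := by
    rw [map_add, map_mul, Complex.conj_ofReal, Complex.conj_ofReal, Complex.conj_I]
    ring
  rw [hconj, ← h4]
  push_cast
  have h6 : T z = (s : ℂ) * gf F z + (t : ℂ) * Complex.I := by linear_combination h1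
  rw [h6]
  field_simp
  linear_combination (-(s : ℂ)) * h5

theorem irr : IRR := by
  intro n F w0 w H hF hF0 hE h0 hw hH hb
  have h0B : (0 : Cn n) ∈ ball (0 : Cn n) 1 := mem_ball_self one_pos
  obtain ⟨a1, ha1⟩ := affine hF hE h0 hw hH hb (α := 1) (by simp)
  obtain ⟨a2, ha2⟩ := affine hF hE h0 hw hH hb (α := Complex.I) (by simp)
  set p : ℂ := (a1 - Complex.I * a2) / 2 with hp
  set q : ℂ := (a1 + Complex.I * a2) / 2 with hq
  have hcp : conj p = (conj a1 + Complex.I * conj a2) / 2 := by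
    rw [hp, map_div₀, map_sub, map_mul, Complex.conj_I, Complex.conj_ofNat]
    ring
  have hcq : conj q = (conj a1 - Complex.I * conj a2) / 2 := by
    rw [hq, map_div₀, map_add, map_mul, Complex.conj_I, Complex.conj_ofNat]
    ring
  have hH' : ∀ z ∈ ball (0 : Cn n) 1, H z = p + conj q * mob w0 (F z) := by
    intro z hz
    have h1 := ha1 z hz
    have h2 := ha2 z hz
    rw [map_one] at h1
    rw [Complex.conj_I] at h2
    rw [hp, hcq]
    have hI : Complex.I * Complex.I = -1 := Complex.I_mul_I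
    linear_combination (1 / 2 : ℂ) * h1 - (Complex.I / 2) * h2 + ((H z - w z) / 2) * hI
  have hw' : ∀ z ∈ ball (0 : Cn n) 1, w z = q + conj p * mob w0 (F z) := by
    intro z hz
    have h1 := ha1 z hz
    have h2 := ha2 z hz
    rw [map_one] at h1
    rw [Complex.conj_I] at h2
    rw [hq, hcp]
    have hI : Complex.I * Complex.I = -1 := Complex.I_mul_I
    linear_combination (1 / 2 : ℂ) * h1 + (Complex.I / 2) * h2 + ((w z - H z) / 2) * hI
  by_cases hp0 : p = 0
  · left
    intro z hz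
    rw [hw' z hz, hw' 0 h0B, hp0, map_zero, zero_mul, zero_mul]
  by_cases hq0 : q = 0
  · right
    intro z hz
    rw [hH' z hz, hH' 0 h0B, hq0, map_zero, zero_mul, zero_mul]
  left
  -- the values of the Moebius transform are roots of a quadratic polynomial
  let R : Polynomial ℂ := Polynomial.C (conj p * conj q) * Polynomial.X ^ 2 +
    Polynomial.C (p * conj p + q * conj q - 1) * Polynomial.X + Polynomial.C (p * q)
  have hR0 : R ≠ 0 := by
    intro h
    have h1 : R.eval 0 = 0 := by rw [h, Polynomial.eval_zero]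
    have h2 : R.eval 0 = p * q := by simp [R]
    rw [h2] at h1
    rcases mul_eq_zero.1 h1 with h3 | h3
    · exact hp0 h3
    · exact hq0 h3
  have hroot : ∀ z ∈ ball (0 : Cn n) 1, R.eval (mob w0 (F z)) = 0 := by
    intro z hz
    have h1 := (hb z hz).2.2
    rw [hH' z hz, hw' z hz] at h1
    simp only [R, Polynomial.eval_add, Polynomial.eval_mul, Polynomial.eval_C,
      Polynomial.eval_pow, Polynomial.eval_X]
    linear_combination -h1
  have hfin : {x : ℂ | R.eval x = 0}.Finite := by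
    have h1 : {x : ℂ | R.eval x = 0} = ↑(R.roots.toFinset) := by
      ext x
      simp [Polynomial.mem_roots hR0, Polynomial.IsRoot]
    rw [h1]
    exact Finset.finite_toSet _
  have hcont : ContinuousOn (fun z => mob w0 (F z)) (ball (0 : Cn n) 1) :=
    ((hw.mul hH).congr fun z hz => (hb z hz).2.2).continuousOn
  obtain ⟨y, -, hy⟩ := (convex_ball (0 : Cn n) 1).isPreconnected.eqOn_const_of_mapsTo
    hfin.isDiscrete hcont (fun z hz => hroot z hz) ⟨_, hroot 0 h0B⟩
  intro z hz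
  have h1 : mob w0 (F z) = y := hy hz
  have h2 : mob w0 (F 0) = y := hy h0B
  rw [hw' z hz, hw' 0 h0B, h1, h2]

end

end Pool.Agent.Lib.MP_6ff8d9_an.P69
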