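import Pool.Agent.Lib.MP_6ff8d9_an_h69.Maxw
import Pool.Agent.Lib.MP_6ff8d9_an_h21r.Fact2
import Pool.Agent.Lib.MP_6ff8d9_an_h82.Green2
import Pool.Agent.Lib.MP_6ff8d9_an_h11.Unif
import Pool.Agent.Lib.MP_6ff8d9_an_h20r.Wonto
import Pool.Agent.Lib.MP_6ff8d9_an_h50.Wprime
import Pool.Agent.Lib.MP_6ff8d9_an_h22.Irred

/-!
# THEOREM U, closed; irreducible implies prime, closed
-/

namespace Pool.Agent.Lib.MP_6ff8d9_an.H69F

open Pool.Agent.Lib.MP_6ff8d9_an.P69

theorem fact2 : FACT2 := H21F.fact2 (H82L.green2 perre' sect)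

theorem maxw : MAXW := P69.maxw fact2

/-- **theorem U**: every holomorphic function from the ball to the disc is a holomorphic function
of a prime one -/
theorem unif : UNIF := P69.unif maxw wonto (wprime fact2 (krel locf) kof)

/-- irreducible functions (Forelli) are prime -/
theorem irrprime : IRRPRIME := irrprime' unif

end Pool.Agent.Lib.MP_6ff8d9_an.H69F
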