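import Pool.Agent.Lib.MP_6ff8d9_an_h69.Rows

/-!
# Row SECT: local sections of a submersion
-/

open Metric Filter Topology

namespace Pool.Agent.Lib.MP_6ff8d9_an.P69

open Pool.Agent.Lib.MP_6ff8d9_an Pool.Agent.Lib.MP_6ff8d9_an.H11

noncomputable section

theorem sect : SECT := by
  intro n F O hO hF z0 hz0 hne
  obtain ⟨e, he⟩ : ∃ e, fderiv ℂ F z0 e ≠ 0 := by
    by_contra h
    push Not at h
    exact hne (ContinuousLinearMap.ext (by simpa using h))
  have hFz : DifferentiableAt ℂ F z0 := hF.differentiableAt (hO.mem_nhds hz0)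
  have hl : Differentiable ℂ (fun t : ℂ => z0 + t • e) := by fun_prop
  have hl0 : z0 + (0 : ℂ) • e = z0 := by rw [zero_smul, add_zero]
  let φ : ℂ → ℂ := fun t => F (z0 + t • e)
  have hφ0 : φ 0 = F z0 := congrArg F hl0
  have hU : IsOpen {t : ℂ | z0 + t • e ∈ O} := hO.preimage hl.continuous
  have h0U : (0 : ℂ) ∈ {t : ℂ | z0 + t • e ∈ O} := by
    show z0 + (0 : ℂ) • e ∈ O
    rw [hl0]; exact hz0
  have hφan : AnalyticAt ℂ φ 0 := by
    refine DifferentiableOn.analyticAt (s := {t : ℂ | z0 + t • e ∈ O}) ?_ (hU.mem_nhds h0U)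
    intro t ht
    have h1 : DifferentiableAt ℂ F (z0 + t • e) := hF.differentiableAt (hO.mem_nhds ht)
    exact (h1.comp t (hl t)).differentiableWithinAt
  have hφd : HasDerivAt φ (fderiv ℂ F z0 e) 0 := by
    have h1 : HasDerivAt (fun t : ℂ => z0 + t • e) e 0 := by
      have h2 := ((hasDerivAt_id (0 : ℂ)).smul_const e).const_add z0
      simpa using h2
    have h3 : HasFDerivAt F (fderiv ℂ F z0) (z0 + (0 : ℂ) • e) := by
      rw [hl0]; exact hFz.hasFDerivAt
    exact h3.comp_hasDerivAt (0 : ℂ) h1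
  have hder : deriv φ 0 ≠ 0 := by rw [hφd.deriv]; exact he
  let r : ℂ → ℂ := hφan.hasStrictDerivAt.localInverse _ _ _ hder
  have hra : AnalyticAt ℂ r (φ 0) := hφan.analyticAt_localInverse hder
  have hr0 : r (φ 0) = 0 := HasStrictFDerivAt.localInverse_apply_image ..
  have hright : ∀ᶠ w in 𝓝 (φ 0), φ (r w) = w :=
    HasStrictDerivAt.eventually_right_inverse hφan.hasStrictDerivAt hder
  rw [hφ0] at hra hr0 hright
  have hO' : ∀ᶠ w in 𝓝 (F z0), z0 + r w • e ∈ O := by
    have h1 : ContinuousAt (fun w => z0 + r w • e) (F z0) := by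
      exact continuousAt_const.add (hra.continuousAt.smul continuousAt_const)
    have h2 : z0 + r (F z0) • e ∈ O := by rw [hr0, hl0]; exact hz0
    exact h1.eventually_mem (hO.mem_nhds h2)
  obtain ⟨ε, hε, h⟩ := Metric.eventually_nhds_iff_ball.1
    (hra.eventually_analyticAt.and (hright.and hO'))
  refine ⟨ε, hε, fun w => z0 + r w • e, ?_, ?_, ?_⟩
  · show z0 + r (F z0) • e = z0
    rw [hr0, hl0]
  · intro w hw
    have h1 := (h w hw).1.differentiableAt
    exact ((h1.smul_const e).const_add z0).differentiableWithinAt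
  · intro w hw
    exact ⟨(h w hw).2.2, (h w hw).2.1⟩

end

end Pool.Agent.Lib.MP_6ff8d9_an.P69
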