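import Pool.Agent.Lib.MP_6ff8d9_an_h69.Thmg
import Pool.Agent.Lib.MP_6ff8d9_an_h69.Irr
import Pool.Agent.Lib.MP_6ff8d9_an_h69.Locf
import Pool.Agent.Lib.MP_6ff8d9_an_h69.Sect
import Pool.Agent.Lib.MP_6ff8d9_an_h42.Fact
import Pool.Agent.Lib.MP_6ff8d9_an_h11.Perre
import Pool.Agent.Lib.MP_6ff8d9_an_h11.Main
import Pool.Agent.Lib.MP_6ff8d9_an_h50.Decr
import Pool.Agent.Lib.MP_6ff8d9_an_h20r.Surj
import Pool.Agent.Lib.MP_6ff8d9_an_h1.Kof

/-!
# Theorem G, closed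
-/

namespace Pool.Agent.Lib.MP_6ff8d9_an.H69F

open Pool.Agent.Lib.MP_6ff8d9_an.P69

/-- theorem G: extreme points of the ball's normalised Carathéodory class are prime -/
theorem thmg : THMG :=
  thmg_of locf (H42F.fact (H82L.green (perre H11.pmod H50.decr sect) sect)) irr (surj irr) kof

/-- rational extreme points are prime -/
theorem prm {n : ℕ} {P Q : MvPolynomial (Fin n) ℂ} (hn : 1 ≤ n)
    (hex : IsExtremePoint n (H22.gPQ P Q)) : H22.Prm P Q := prm_of_thmg thmg hn hex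

end Pool.Agent.Lib.MP_6ff8d9_an.H69F
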