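import Pool.Agent.Lib.MP_6ff8d9_an_h69.UTools
import Pool.Agent.Lib.MP_6ff8d9_an_h69.Locf

/-!
# MP_6ff8d9 UNIFORMISATION, row MAXW: the maximal function
-/

open Metric Filter Topology Set
open scoped ComplexConjugate ContDiff

namespace Pool.Agent.Lib.MP_6ff8d9_an.P69

open Pool.Agent.Lib.MP_6ff8d9_an Pool.Agent.Lib.MP_6ff8d9_an.H11

noncomputable section

variable {n : ℕ}

/-- the family is closed under limits along ultrafilters -/
lemma fam_lim {F : Cn n → ℂ} {z1 : Cn n} (hz1 : z1 ∈ ball (0 : Cn n) 1) (u : Ultrafilter ℕ)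
    (G : ℕ → Cn n → ℂ) (hG : ∀ j, Fam n F z1 (G j)) :
    ∃ G' : Cn n → ℂ, Fam n F z1 G' ∧
      (∀ z ∈ ball (0 : Cn n) 1, Tendsto (fun j => G j z) (u : Filter ℕ) (𝓝 (G' z))) ∧
      ∀ z ∈ ball (0 : Cn n) 1,
        Tendsto (fun j => fderiv ℂ (G j) z) (u : Filter ℕ) (𝓝 (fderiv ℂ G' z)) := by
  have hu : NeBot (u : Filter ℕ) := u.neBot
  obtain ⟨G', hd, h1, h2⟩ := mont2 u G (fun j => (hG j).an) (fun j => (hG j).le)
  refine ⟨G', ⟨hd, ?_, ?_, ?_⟩, h1, h2⟩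
  · intro z hz v v'
    have hv : ∀ v : Cn n, Tendsto (fun j => fderiv ℂ (G j) z v) (u : Filter ℕ)
        (𝓝 (fderiv ℂ G' z v)) := fun v =>
      ((ContinuousLinearMap.apply ℂ ℂ v).continuous.tendsto (fderiv ℂ G' z)).comp (h2 z hz)
    have e1 := (hv v').const_mul (fderiv ℂ F z v)
    have e2 := (hv v).const_mul (fderiv ℂ F z v')
    exact tendsto_nhds_unique e1 (e2.congr fun j => ((hG j).dep z hz v v').symm)
  · intro z hz
    exact le_of_tendsto (h1 z hz).norm (Eventually.of_forall fun j => (hG j).le z hz)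
  · have h3 := h1 z1 hz1
    have h4 : (fun j => G j z1) = fun _ => (0 : ℂ) := funext fun j => (hG j).zero
    rw [h4] at h3
    exact tendsto_nhds_unique h3 tendsto_const_nhds

/-- row MAXW -/
theorem maxw (hF2 : FACT2) : MAXW := by
  intro n F e hF z1 hz1
  have hz1b : z1 ∈ ball (0 : Cn n) 1 := hz1.1
  set S : Set ℝ := {s | ∃ φ, Fam n F z1 φ ∧ s = ‖fderiv ℂ φ z1 e‖} with hS
  -- bounded
  have hR : 0 < 1 - ‖z1‖ := by
    have := mem_ball_zero_iff.1 hz1b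
    linarith
  have hsub : ball z1 (1 - ‖z1‖) ⊆ ball (0 : Cn n) 1 := by
    refine ball_subset_ball' ?_
    rw [dist_zero_right]
    linarith
  have hbd : BddAbove S := by
    refine ⟨2 * 1 / (1 - ‖z1‖) * ‖e‖, ?_⟩
    rintro s ⟨φ, hφ, rfl⟩
    have h1 := (Pool.Agent.K708C.cauchy2 hR (hφ.an.mono hsub) (fun z hz => hφ.le z (hsub hz))).1
    exact ((fderiv ℂ φ z1).le_opNorm e).trans (mul_le_mul_of_nonneg_right h1 (norm_nonneg _))
  -- a first member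
  have hφ0 : Fam n F z1 (fun z => (F z - F z1) * (1 / 2)) := by
    refine ⟨(hF.an.sub_const _).mul_const _, ?_, ?_, by simp⟩
    · exact dep_comp (g := fun t => (t - F z1) * (1 / 2)) hF.an (dep_self F) (fun z hz => by fun_prop)
    · intro z hz
      rw [norm_mul]
      have h1 := norm_sub_le (F z) (F z1)
      have h2 := hF.lt z hz
      have h3 := hF.lt z1 hz1b
      have h4 : ‖(1 / 2 : ℂ)‖ = 1 / 2 := by norm_num
      rw [h4]
      linarith
  have hd0 : fderiv ℂ (fun z => (F z - F z1) * (1 / 2)) z1 e ≠ 0 := by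
    have h1 : HasFDerivAt (fun z => (F z - F z1) * (1 / 2)) ((1 / 2 : ℂ) • fderiv ℂ F z1) z1 :=
      ((diffAt hF.an hz1b).hasFDerivAt.sub_const _).mul_const _
    rw [h1.fderiv]
    simp only [smul_apply, smul_eq_mul]
    exact mul_ne_zero (by norm_num) hz1.2
  have hne : S.Nonempty := ⟨_, _, hφ0, rfl⟩
  have hpos : 0 < sSup S := (norm_pos_iff.2 hd0).trans_le (le_csSup hbd ⟨_, hφ0, rfl⟩)
  have hseq : ∀ j : ℕ, ∃ φ, Fam n F z1 φ ∧ sSup S - 1 / ((j : ℝ) + 1) < ‖fderiv ℂ φ z1 e‖ := by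
    intro j
    obtain ⟨s, ⟨φ, hφ, rfl⟩, hs⟩ := exists_lt_of_lt_csSup hne
      (show sSup S - 1 / ((j : ℝ) + 1) < sSup S by
        have : (0 : ℝ) < 1 / ((j : ℝ) + 1) := by positivity
        linarith)
    exact ⟨φ, hφ, hs⟩
  choose G hG hGd using hseq
  obtain ⟨W, hW, -, hWd⟩ := fam_lim hz1b (hyperfilter ℕ) G hG
  have hu : NeBot (hyperfilter ℕ : Filter ℕ) := (hyperfilter ℕ).neBot
  have hge : sSup S ≤ ‖fderiv ℂ W z1 e‖ := by
    have h1 : Tendsto (fun j => ‖fderiv ℂ (G j) z1 e‖) (hyperfilter ℕ : Filter ℕ)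
        (𝓝 ‖fderiv ℂ W z1 e‖) :=
      (((ContinuousLinearMap.apply ℂ ℂ e).continuous.tendsto (fderiv ℂ W z1)).comp
        (hWd z1 hz1b)).norm
    have h2 : Tendsto (fun j : ℕ => sSup S - 1 / ((j : ℝ) + 1)) (hyperfilter ℕ : Filter ℕ)
        (𝓝 (sSup S - 0)) :=
      (tendsto_const_nhds.sub tendsto_one_div_add_atTop_nhds_zero_nat).mono_left
        Nat.hyperfilter_le_atTop
    rw [sub_zero] at h2
    exact le_of_tendsto_of_tendsto h2 h1 (Eventually.of_forall fun j => (hGd j).le)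
  have hWe : fderiv ℂ W z1 e ≠ 0 := norm_pos_iff.1 (hpos.trans_le hge)
  -- `W` is not constant
  have hWlt : ∀ z ∈ ball (0 : Cn n) 1, ‖W z‖ < 1 := by
    intro p hp
    by_contra hcon
    rw [not_lt] at hcon
    have h1 := max_const hW.an hW.le hp hcon
    have h2 : W =ᶠ[𝓝 z1] fun _ => W p := by
      filter_upwards [isOpen_ball.mem_nhds hz1b] with z hz
      exact h1 z hz
    apply hWe
    rw [h2.fderiv_eq]
    simp
  have hWH : Hol n W := ⟨hW.an, hWlt⟩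
  have hz1W : z1 ∈ Oe W e := ⟨hz1b, hWe⟩
  refine ⟨W, hWH, hW, hWe, fun φ hφ => ?_⟩
  have hDφ : Dep W φ := dep_trans hF.an hW.an hφ.an ⟨z1, hz1⟩ hW.dep hφ.dep
  obtain ⟨w, H, hw, hH, hb, hDw, hφw, hw1, -, -⟩ := hF2 n W φ e (Ek W φ) hWH
    (krel locf n W φ e hW.an hφ.an hDφ) hφ.an hDφ hφ.le
    (fun z _ z' _ h => h.2.self_of_nhds h.1) z1 hz1W hφ.zero
  rw [hW.zero] at hb
  have hwF : Fam n F z1 w := by
    refine ⟨hw, ?_, fun z hz => (hb z hz).1, hw1⟩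
    exact dep_trans hW.an hF.an hw ⟨z1, hz1W⟩ hW.dep.symm hDw
  have hWeq : ∀ z ∈ ball (0 : Cn n) 1, W z = w z * H z := fun z hz => by
    rw [← (hb z hz).2.2, mob_zero']
  have hder : fderiv ℂ W z1 e = H z1 * fderiv ℂ w z1 e := by
    have h1 : W =ᶠ[𝓝 z1] fun z => w z * H z := by
      filter_upwards [isOpen_ball.mem_nhds hz1b] with z hz
      exact hWeq z hz
    have h2 : HasFDerivAt (fun z => w z * H z) (w z1 • fderiv ℂ H z1 + H z1 • fderiv ℂ w z1) z1 :=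
      (diffAt hw hz1b).hasFDerivAt.mul (diffAt hH hz1b).hasFDerivAt
    rw [h1.fderiv_eq, h2.fderiv, hw1]
    simp
  have hle : ‖fderiv ℂ w z1 e‖ ≤ ‖fderiv ℂ W z1 e‖ := (le_csSup hbd ⟨_, hwF, rfl⟩).trans hge
  have hH1 : 1 ≤ ‖H z1‖ := by
    have h1 : ‖fderiv ℂ W z1 e‖ = ‖H z1‖ * ‖fderiv ℂ w z1 e‖ := by rw [hder, norm_mul]
    have h2 : 0 < ‖fderiv ℂ W z1 e‖ := norm_pos_iff.2 hWe
    by_contra hcon
    rw [not_le] at hcon
    have h3 : ‖H z1‖ * ‖fderiv ℂ w z1 e‖ ≤ ‖H z1‖ * ‖fderiv ℂ W z1 e‖ :=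
      mul_le_mul_of_nonneg_left hle (norm_nonneg _)
    nlinarith
  have hHc := max_const hH (fun z hz => (hb z hz).2.1) hz1b hH1
  intro z hz
  refine (hφw z hz).trans ?_
  rw [hWeq z hz, norm_mul, hHc z hz]
  nlinarith [norm_nonneg (w z)]

end

end Pool.Agent.Lib.MP_6ff8d9_an.P69
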