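import Pool.Agent.Lib.MP_6ff8d9_an_h69.RowsI
import Pool.Agent.Lib.MP_708a61_C.Montel

/-!
# MP_6ff8d9 IRREDUCIBLE, row MONT: limits along ultrafilters of bounded holomorphic functions
-/

open Metric Filter Topology Set

namespace Pool.Agent.Lib.MP_6ff8d9_an.P69

open Pool.Agent.Lib.MP_6ff8d9_an

noncomputable section

theorem mont : MONT := by
  classical
  intro m u G hGd hGB
  have hu : NeBot (u : Filter ℕ) := u.neBot
  have : ProperSpace (Cn m →L[ℂ] ℂ) := FiniteDimensional.proper ℂ _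
  obtain ⟨R, hR⟩ : ∃ R : Cn m → ℝ, R = fun z => 1 - dist z 0 := ⟨_, rfl⟩
  have hR0 : ∀ z ∈ Metric.ball (0 : Cn m) 1, 0 < R z := by
    intro z hz
    rw [hR]
    rw [Metric.mem_ball] at hz
    simp only
    linarith
  have hRs : ∀ z, Metric.ball z (R z) ⊆ Metric.ball (0 : Cn m) 1 := by
    intro z
    rw [hR]
    refine Metric.ball_subset_ball' ?_
    simp
  -- the estimates
  have hest : ∀ z ∈ Metric.ball (0 : Cn m) 1, ∀ n : ℕ, ‖fderiv ℂ (G n) z‖ ≤ 2 * 1 / R z ∧
      ∀ w ∈ Metric.ball z (R z), ‖G n w - G n z‖ ≤ 2 * 1 / R z * dist w z ∧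
      ‖G n w - G n z - fderiv ℂ (G n) z (w - z)‖ ≤ 4 * 1 / R z ^ 2 * ‖w - z‖ ^ 2 := by
    intro z hz n
    exact Pool.Agent.K708C.cauchy2 (hR0 z hz) ((hGd n).mono (hRs z))
      fun w hw => hGB n w (hRs z hw)
  -- the limits
  have hlim : ∀ z ∈ Metric.ball (0 : Cn m) 1, ∃ y : ℂ,
      Tendsto (fun n => G n z) (u : Filter ℕ) (𝓝 y) := by
    intro z hz
    obtain ⟨y, -, hy⟩ := (isCompact_closedBall (0 : ℂ) 1).ultrafilter_le_nhds
      (u.map fun n => G n z) (by
        rw [le_principal_iff, Ultrafilter.coe_map, mem_map]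
        filter_upwards with n
        rw [mem_preimage, mem_closedBall_zero_iff]
        exact hGB n z hz)
    exact ⟨y, hy⟩
  have hlimA : ∀ z ∈ Metric.ball (0 : Cn m) 1, ∃ y : Cn m →L[ℂ] ℂ,
      Tendsto (fun n => fderiv ℂ (G n) z) (u : Filter ℕ) (𝓝 y) := by
    intro z hz
    obtain ⟨y, -, hy⟩ := (isCompact_closedBall (0 : Cn m →L[ℂ] ℂ) (2 * 1 / R z)).ultrafilter_le_nhds
      (u.map fun n => fderiv ℂ (G n) z) (by
        rw [le_principal_iff, Ultrafilter.coe_map, mem_map]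
        filter_upwards with n
        rw [mem_preimage, mem_closedBall_zero_iff]
        exact (hest z hz n).1)
    exact ⟨y, hy⟩
  choose! G' hG' using hlim
  choose! A hA using hlimA
  have hder : ∀ z ∈ Metric.ball (0 : Cn m) 1, HasFDerivAt G' (A z) z := by
    intro z hz
    have hq : ∀ w ∈ Metric.ball z (R z), ‖G' w - G' z - A z (w - z)‖ ≤
        4 * 1 / R z ^ 2 * ‖w - z‖ ^ 2 := by
      intro w hw
      have h1 : Tendsto (fun n => ‖G n w - G n z - fderiv ℂ (G n) z (w - z)‖) (u : Filter ℕ)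
          (𝓝 ‖G' w - G' z - A z (w - z)‖) := by
        refine (((hG' w (hRs z hw)).sub (hG' z hz)).sub ?_).norm
        exact ((ContinuousLinearMap.apply ℂ ℂ (w - z)).continuous.tendsto (A z)).comp (hA z hz)
      refine le_of_tendsto h1 ?_
      filter_upwards with n
      exact ((hest z hz n).2 w hw).2
    refine HasFDerivAt.of_isLittleO ?_
    have h3 : (fun w => G' w - G' z - A z (w - z)) =O[𝓝 z] fun w => ‖w - z‖ ^ 2 := by
      refine Asymptotics.IsBigO.of_bound (4 * 1 / R z ^ 2) ?_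
      filter_upwards [Metric.ball_mem_nhds z (hR0 z hz)] with w hw
      refine (hq w hw).trans (le_of_eq ?_)
      rw [Real.norm_of_nonneg (by positivity)]
    exact h3.trans_isLittleO (Asymptotics.isLittleO_pow_sub_sub z (by norm_num))
  refine ⟨G', fun z hz => (hder z hz).differentiableAt.differentiableWithinAt, fun z hz => ?_⟩
  have h1 : Tendsto (fun p : ℕ × Cn m => G p.1 z) ((u : Filter ℕ) ×ˢ 𝓝 z) (𝓝 (G' z)) :=
    (hG' z hz).comp tendsto_fst
  have h2 : Tendsto (fun p : ℕ × Cn m => G p.1 p.2 - G p.1 z) ((u : Filter ℕ) ×ˢ 𝓝 z)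
      (𝓝 0) := by
    have h3 : Tendsto (fun p : ℕ × Cn m => 2 * 1 / R z * dist p.2 z)
        ((u : Filter ℕ) ×ˢ 𝓝 z) (𝓝 0) := by
      have h4 : Tendsto (fun w : Cn m => 2 * 1 / R z * dist w z) (𝓝 z) (𝓝 0) := by
        have h5 : Continuous fun w : Cn m => 2 * 1 / R z * dist w z := by fun_prop
        have h6 := h5.tendsto z
        simpa using h6
      exact h4.comp tendsto_snd
    refine squeeze_zero_norm' ?_ h3
    have h7 : ∀ᶠ w in 𝓝 z, w ∈ ball z (R z) := Metric.ball_mem_nhds z (hR0 z hz)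
    filter_upwards [h7.prod_inr (u : Filter ℕ)] with p hp
    exact ((hest z hz p.1).2 p.2 hp).1
  have h3 := h1.add h2
  rw [add_zero] at h3
  refine h3.congr fun p => ?_
  ring

end

end Pool.Agent.Lib.MP_6ff8d9_an.P69
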