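import Pool.Agent.Lib.MP_6ff8d9_an_h11.Rows
import Pool.Agent.Lib.MP_6ff8d9_an_h22.Rows0

/-!
# MP_6ff8d9 PRIME rows: extreme points are prime, zeros of `Q` on the sphere allowed

Text: `r6_prime_h69.md` of the team store.  Everything is for an arbitrary holomorphic
`F : ball → disc`; `F = P/Q` only in the last rows.
-/

open Metric Filter Topology MvPolynomial InnerProductSpace Real
open scoped ComplexConjugate

namespace Pool.Agent.Lib.MP_6ff8d9_an.P69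

open Pool.Agent.Lib.MP_6ff8d9_an Pool.Agent.Lib.MP_6ff8d9_an.H11

noncomputable section

variable {n : ℕ}

/-- a holomorphic function from the ball to the disc -/
structure Hol (n : ℕ) (F : Cn n → ℂ) : Prop where
  an : DifferentiableOn ℂ F (ball 0 1)
  lt : ∀ z ∈ ball (0 : Cn n) 1, ‖F z‖ < 1

/-- `dk ∧ dF = 0` on the ball -/
def Dep (F k : Cn n → ℂ) : Prop := ∀ z ∈ ball (0 : Cn n) 1, ∀ v v' : Cn n,
  fderiv ℂ F z v * fderiv ℂ k z v' = fderiv ℂ F z v' * fderiv ℂ k z v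

/-- `F` is prime: every holomorphic `k` with `dk ∧ dF = 0` is a holomorphic function of `F` -/
def PrimeF (n : ℕ) (F : Cn n → ℂ) : Prop := ∀ k : Cn n → ℂ, DifferentiableOn ℂ k (ball 0 1) →
  Dep F k → ∃ K : ℂ → ℂ, DifferentiableOn ℂ K (ball 0 1) ∧
    ∀ z ∈ ball (0 : Cn n) 1, k z = K (F z)

/-- the part of the ball where the derivative in the direction `e` does not vanish -/
def Oe (F : Cn n → ℂ) (e : Cn n) : Set (Cn n) := {z | z ∈ ball (0 : Cn n) 1 ∧ fderiv ℂ F z e ≠ 0}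

/-- an open and closed equivalence relation on the fibres of a submersion -/
structure Rel (n : ℕ) (F : Cn n → ℂ) (O : Set (Cn n)) (E : Cn n → Cn n → Prop) : Prop where
  op : IsOpen O
  an : DifferentiableOn ℂ F O
  sub : ∀ z ∈ O, fderiv ℂ F z ≠ 0
  refl : ∀ z ∈ O, E z z
  symm : ∀ z ∈ O, ∀ z' ∈ O, E z z' → E z' z
  trans : ∀ z ∈ O, ∀ z' ∈ O, ∀ z'' ∈ O, E z z' → E z' z'' → E z z''
  fib : ∀ z z', E z z' → F z = F z'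
  opn : ∀ z ∈ O, ∀ z' ∈ O, E z z' →
    ∀ᶠ p : Cn n × Cn n in 𝓝 (z, z'), F p.1 = F p.2 → E p.1 p.2
  cls : ∀ z ∈ O, ∀ z' ∈ O, F z = F z' → ¬ E z z' →
    ∀ᶠ p : Cn n × Cn n in 𝓝 (z, z'), F p.1 = F p.2 → ¬ E p.1 p.2

/-- the relation of a dependent function: equal germs of `k` as a function of `F` -/
def Ek (F k : Cn n → ℂ) (z z' : Cn n) : Prop :=
  F z = F z' ∧ ∀ᶠ p : Cn n × Cn n in 𝓝 (z, z'), F p.1 = F p.2 → k p.1 = k p.2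

/-- local section of a submersion -/
def SECT : Prop := ∀ (n : ℕ) (F : Cn n → ℂ) (O : Set (Cn n)), IsOpen O →
  DifferentiableOn ℂ F O → ∀ z0 ∈ O, fderiv ℂ F z0 ≠ 0 →
  ∃ ε : ℝ, 0 < ε ∧ ∃ σ : ℂ → Cn n, σ (F z0) = z0 ∧ DifferentiableOn ℂ σ (ball (F z0) ε) ∧
    ∀ w ∈ ball (F z0) ε, σ w ∈ O ∧ F (σ w) = w

/-- a dependent function is locally a function of `F` -/
def LOCF : Prop := ∀ (n : ℕ) (F k : Cn n → ℂ) (z0 : Cn n), DifferentiableOn ℂ F (ball 0 1) →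
  DifferentiableOn ℂ k (ball 0 1) → Dep F k → z0 ∈ ball (0 : Cn n) 1 → fderiv ℂ F z0 ≠ 0 →
  ∃ ε : ℝ, 0 < ε ∧ ∃ κ : ℂ → ℂ, DifferentiableOn ℂ κ (ball (F z0) ε) ∧
    ∀ᶠ z in 𝓝 z0, k z = κ (F z)

/-- the relation `Ek` is open and closed -/
def KREL : Prop := ∀ (n : ℕ) (F k : Cn n → ℂ) (e : Cn n), DifferentiableOn ℂ F (ball 0 1) →
  DifferentiableOn ℂ k (ball 0 1) → Dep F k → Rel n F (Oe F e) (Ek F k)

/-- invariant and locally a super-mean-valued function of `F` -/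
def SupE (F : Cn n → ℂ) (O : Set (Cn n)) (E : Cn n → Cn n → Prop) (u : Cn n → ℝ) : Prop :=
  (∀ z ∈ O, ∀ z' ∈ O, E z z' → u z = u z') ∧ ∀ z0 ∈ O, ∃ ε : ℝ, 0 < ε ∧ ∃ U : ℂ → ℝ,
    SupM U (ball (F z0) ε) ∧ ∀ᶠ z in 𝓝 z0, u z = U (F z)

/-- invariant and locally a sub-mean-valued function of `F` -/
def SubE (F : Cn n → ℂ) (O : Set (Cn n)) (E : Cn n → Cn n → Prop) (u : Cn n → ℝ) : Prop :=
  (∀ z ∈ O, ∀ z' ∈ O, E z z' → u z = u z') ∧ ∀ z0 ∈ O, ∃ ε : ℝ, 0 < ε ∧ ∃ U : ℂ → ℝ,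
    SubM U (ball (F z0) ε) ∧ ∀ᶠ z in 𝓝 z0, u z = U (F z)

/-- R1: the balayage for an open and closed relation -/
def PERRE : Prop := ∀ (n : ℕ) (F : Cn n → ℂ) (O : Set (Cn n)) (E : Cn n → Cn n → Prop)
  (H u0 : Cn n → ℝ), Rel n F O E → SupE F O E H → SubE F O E u0 → (∀ z ∈ O, u0 z ≤ H z) →
  ∃ v : Cn n → ℝ, (∀ z ∈ O, u0 z ≤ v z ∧ v z ≤ H z) ∧
    ∀ z0 ∈ O, ∃ ε : ℝ, 0 < ε ∧ ∃ U : ℂ → ℝ,
      HarmonicOnNhd U (ball (F z0) ε) ∧ ∀ᶠ z in 𝓝 z0, v z = U (F z)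

/-- the disc automorphism with `w0 ↦ 0`, `1 ↦ 1` -/
def mob (w0 w : ℂ) : ℂ := (1 - conj w0) / (1 - w0) * ((w - w0) / (1 - conj w0 * w))

/-- the Green-like potential of one sheet -/
def qf (w0 : ℂ) (F : Cn n → ℂ) (z : Cn n) : ℝ := -Real.log ‖mob w0 (F z)‖

/-- R5: the Green function of one sheet (given PERRE) -/
def GREEN : Prop := ∀ (n : ℕ) (F : Cn n → ℂ) (O : Set (Cn n)) (E : Cn n → Cn n → Prop),
  Rel n F O E → (∀ z ∈ O, ‖F z‖ < 1) → ∀ z1 ∈ O, ∀ z2 ∈ O, F z1 = F z2 → ¬ E z1 z2 →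
  ∃ (v : Cn n → ℝ) (T : Set (Cn n)) (C ρ : ℝ), 0 < ρ ∧
    T ⊆ {z | z ∈ O ∧ F z ∈ ball (F z1) ρ} ∧ IsOpen T ∧
    IsOpen ({z | z ∈ O ∧ F z ∈ ball (F z1) ρ} \ T) ∧ z1 ∈ T ∧ z2 ∉ T ∧
    ∀ z ∈ O, F z ≠ F z1 → LRe v z ∧ 0 ≤ v z ∧ v z ≤ qf (F z1) F z ∧
      (z ∈ T → qf (F z1) F z - C ≤ v z) ∧ (z ∉ T → v z ≤ C)

/-- R6: local form of EXTND (scaling) -/
def EXLOC : Prop := ∀ (n : ℕ) (c : Cn n) (r M : ℝ) (Φ : Cn n → ℂ) (v : Cn n → ℝ), 0 < r →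
  DifferentiableOn ℂ Φ (ball c r) → (∃ z ∈ ball c r, Φ z ≠ 0) →
  (∀ z ∈ ball c r, Φ z ≠ 0 → |v z| ≤ M) → (∀ z ∈ ball c r, Φ z ≠ 0 → LRe v z) →
  ∃ k : Cn n → ℂ, DifferentiableOn ℂ k (ball c r) ∧ ∀ z ∈ ball c r, Φ z ≠ 0 → v z = (k z).re

/-- R2: the zero set does not disconnect (from EXLOC: the characteristic function of a part) -/
def CONN : Prop := ∀ (n : ℕ) (c : Cn n) (r : ℝ) (Φ : Cn n → ℂ), DifferentiableOn ℂ Φ (ball c r) →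
  IsPreconnected {z | z ∈ ball c r ∧ Φ z ≠ 0}

/-- the complement of the zero set is dense -/
def DENS : Prop := ∀ (n : ℕ) (c : Cn n) (r : ℝ) (Φ : Cn n → ℂ), DifferentiableOn ℂ Φ (ball c r) →
  (∃ z ∈ ball c r, Φ z ≠ 0) → ball c r ⊆ closure {z | z ∈ ball c r ∧ Φ z ≠ 0}

/-- Riemann extension (given EXLOC, CONN) -/
def RIEM : Prop := ∀ (n : ℕ) (c : Cn n) (r M : ℝ) (Φ h : Cn n → ℂ), 0 < r →
  DifferentiableOn ℂ Φ (ball c r) → (∃ z ∈ ball c r, Φ z ≠ 0) →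
  DifferentiableOn ℂ h {z | z ∈ ball c r ∧ Φ z ≠ 0} →
  (∀ z ∈ ball c r, Φ z ≠ 0 → ‖h z‖ ≤ M) →
  ∃ h' : Cn n → ℂ, DifferentiableOn ℂ h' (ball c r) ∧ ∀ z ∈ ball c r, Φ z ≠ 0 → h z = h' z

/-- R3: a function which is locally the modulus of a holomorphic function off a thin set is
globally so -/
def MULT : Prop := ∀ (n : ℕ) (A : Set (Cn n)) (m : Cn n → ℝ),
  ball (0 : Cn n) 1 ⊆ closure (ball (0 : Cn n) 1 \ A) →
  (∀ z0 ∈ ball (0 : Cn n) 1, ∃ w : Cn n → ℂ, ∀ᶠ z in 𝓝 z0,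
    DifferentiableAt ℂ w z ∧ (z ∉ A → m z = ‖w z‖)) →
  ∃ W : Cn n → ℂ, DifferentiableOn ℂ W (ball 0 1) ∧
    ∀ z ∈ ball (0 : Cn n) 1, z ∉ A → m z = ‖W z‖

/-- R7: two inequivalent points in a fibre give a factorisation (given GREEN, EXLOC, CONN, DENS,
MULT) -/
def FACT : Prop := ∀ (n : ℕ) (F : Cn n → ℂ) (e : Cn n) (E : Cn n → Cn n → Prop), Hol n F →
  Rel n F (Oe F e) E → ∀ z1 ∈ Oe F e, ∀ z2 ∈ Oe F e, F z1 = F z2 → ¬ E z1 z2 →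
  ∃ w H : Cn n → ℂ, DifferentiableOn ℂ w (ball 0 1) ∧ DifferentiableOn ℂ H (ball 0 1) ∧
    (∀ z ∈ ball (0 : Cn n) 1, ‖w z‖ ≤ 1 ∧ ‖H z‖ ≤ 1 ∧ mob (F z1) (F z) = w z * H z) ∧
    w z1 = 0 ∧ w z2 ≠ 0 ∧ H z1 ≠ 0

/-- R4: irreducibility of all Moebius transforms of an extreme point -/
def IRR : Prop := ∀ (n : ℕ) (F : Cn n → ℂ) (w0 : ℂ) (w H : Cn n → ℂ), Hol n F → F 0 = 0 →
  IsExtremePoint n (gf F) → ‖w0‖ < 1 → DifferentiableOn ℂ w (ball 0 1) →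
  DifferentiableOn ℂ H (ball 0 1) →
  (∀ z ∈ ball (0 : Cn n) 1, ‖w z‖ ≤ 1 ∧ ‖H z‖ ≤ 1 ∧ mob w0 (F z) = w z * H z) →
  (∀ z ∈ ball (0 : Cn n) 1, w z = w 0) ∨ (∀ z ∈ ball (0 : Cn n) 1, H z = H 0)

/-- R8: an extreme point takes all the values (given IRR, PHRE) -/
def SURJ : Prop := ∀ (n : ℕ) (F : Cn n → ℂ), 1 ≤ n → Hol n F → F 0 = 0 →
  IsExtremePoint n (gf F) → ∀ w0 ∈ ball (0 : ℂ) 1, ∃ z ∈ ball (0 : Cn n) 1, F z = w0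

/-- R9: a function constant on the regular parts of the fibres is a function of `F` -/
def KOF : Prop := ∀ (n : ℕ) (F k : Cn n → ℂ) (e : Cn n), Hol n F →
  DifferentiableOn ℂ k (ball 0 1) → (∀ w0 ∈ ball (0 : ℂ) 1, ∃ z ∈ ball (0 : Cn n) 1, F z = w0) →
  (Oe F e).Nonempty → (∀ z ∈ Oe F e, ∀ z' ∈ Oe F e, F z = F z' → k z = k z') →
  ∃ K : ℂ → ℂ, DifferentiableOn ℂ K (ball 0 1) ∧ ∀ z ∈ ball (0 : Cn n) 1, k z = K (F z)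

/-- theorem G: extreme points are prime -/
def THMG : Prop := ∀ (n : ℕ) (F : Cn n → ℂ), 1 ≤ n → Hol n F → F 0 = 0 →
  IsExtremePoint n (gf F) → PrimeF n F

/-- R10: sufficiency for rational functions with a regular contact point (given LOCAL0 and the
disc step) -/
def SUFF : Prop := ∀ (n : ℕ) (P Q : MvPolynomial (Fin n) ℂ), 1 ≤ n → H22.gPQ P Q ∈ NB n →
  (∃ m ∈ H22.Ct0 P Q, eval m P ≠ eval m Q) → H22.Dual P Q → PrimeF n (fF P Q) →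
  IsExtremePoint n (H22.gPQ P Q)

/-- the characterisation -/
def RATIFF : Prop := ∀ (n : ℕ) (P Q : MvPolynomial (Fin n) ℂ), 1 ≤ n → H22.gPQ P Q ∈ NB n →
  (∃ m ∈ H22.Ct0 P Q, eval m P ≠ eval m Q) →
  (IsExtremePoint n (H22.gPQ P Q) ↔ H22.Dual P Q ∧ PrimeF n (fF P Q))

end

end Pool.Agent.Lib.MP_6ff8d9_an.P69
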