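import Pool.Agent.Lib.MP_6ff8d9_an_h69.RowsI

/-!
# MP_6ff8d9 UNIFORMISATION rows (idea of helper99, helper21): every function from the ball to the
disc is a holomorphic function of a prime one
-/

open Metric Filter Topology InnerProductSpace Real
open scoped ComplexConjugate

namespace Pool.Agent.Lib.MP_6ff8d9_an.P69

open Pool.Agent.Lib.MP_6ff8d9_an Pool.Agent.Lib.MP_6ff8d9_an.H11

noncomputable section

variable {n : ℕ}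

/-- the functions dependent on `F`, bounded by one, with a zero at `z1` -/
structure Fam (n : ℕ) (F : Cn n → ℂ) (z1 : Cn n) (φ : Cn n → ℂ) : Prop where
  an : DifferentiableOn ℂ φ (ball 0 1)
  dep : Dep F φ
  le : ∀ z ∈ ball (0 : Cn n) 1, ‖φ z‖ ≤ 1
  zero : φ z1 = 0

/-- U1: the maximal function (given FACT2, MONT, KREL) -/
def MAXW : Prop := ∀ (n : ℕ) (F : Cn n → ℂ) (e : Cn n), Hol n F → ∀ z1 ∈ Oe F e,
  ∃ W : Cn n → ℂ, Hol n W ∧ Fam n F z1 W ∧ fderiv ℂ W z1 e ≠ 0 ∧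
    ∀ φ, Fam n F z1 φ → ∀ z ∈ ball (0 : Cn n) 1, ‖φ z‖ ≤ ‖W z‖

/-- U2: a maximal function takes all the values -/
def WONTO : Prop := ∀ (n : ℕ) (W : Cn n → ℂ) (e z1 : Cn n), Hol n W → z1 ∈ Oe W e → W z1 = 0 →
  (∀ φ, Fam n W z1 φ → ∀ z ∈ ball (0 : Cn n) 1, ‖φ z‖ ≤ ‖W z‖) →
  ∀ w0 ∈ ball (0 : ℂ) 1, ∃ z ∈ ball (0 : Cn n) 1, W z = w0

/-- U3: a maximal function is prime (given FACT2, KREL, KOF, WONTO) -/
def WPRIME : Prop := ∀ (n : ℕ) (W : Cn n → ℂ) (e z1 : Cn n), Hol n W → z1 ∈ Oe W e → W z1 = 0 →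
  (∀ φ, Fam n W z1 φ → ∀ z ∈ ball (0 : Cn n) 1, ‖φ z‖ ≤ ‖W z‖) → PrimeF n W

/-- U4: **uniformisation**: every holomorphic function from the ball to the disc is a function of a
prime function -/
def UNIF : Prop := ∀ (n : ℕ) (F : Cn n → ℂ), Hol n F → F 0 = 0 →
  (∃ z ∈ ball (0 : Cn n) 1, F z ≠ 0) →
  ∃ (W : Cn n → ℂ) (h : ℂ → ℂ), Hol n W ∧ W 0 = 0 ∧ PrimeF n W ∧
    (∀ w0 ∈ ball (0 : ℂ) 1, ∃ z ∈ ball (0 : Cn n) 1, W z = w0) ∧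
    DifferentiableOn ℂ h (ball 0 1) ∧ h 0 = 0 ∧ (∀ w ∈ ball (0 : ℂ) 1, ‖h w‖ < 1) ∧
    ∀ z ∈ ball (0 : Cn n) 1, F z = h (W z)

end

end Pool.Agent.Lib.MP_6ff8d9_an.P69
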