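import Pool.Agent.Lib.MP_6ff8d9_an_h8.SymRows
import Pool.Agent.Lib.MP_6ff8d9_an_h33.Exp3

/-!
# MP_6ff8d9, symmetric functions in dimension 2: rows FLP, FLN, DIL
-/

open Metric Filter Topology MvPolynomial Matrix
open scoped ComplexConjugate

namespace Pool.Agent.Lib.MP_6ff8d9_an.N2

open Pool.Agent.Lib.MP_6ff8d9_an Pool.Agent.Lib.MP_6ff8d9_an.H22

noncomputable section

/-- row FLP -/
theorem flp : FLP := by
  intro τ b hb _ w ζ _ hζ s
  have hy : 0 < ζ.im := hζ.1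
  obtain ⟨u, hu⟩ : ∃ u : ℂ, u = -Complex.I * ζ := ⟨_, rfl⟩
  have hur : 0 < u.re := by
    rw [hu]
    simpa using hy
  have hu1 : u + 1 ≠ 0 := by
    intro h
    have := congrArg Complex.re h
    simp at this
    linarith
  have hbc : (b : ℂ) ≠ 0 := Complex.ofReal_ne_zero.2 hb
  obtain ⟨u', hu'⟩ : ∃ u' : ℂ, u' = u + 2 * b * (s * Complex.I) := ⟨_, rfl⟩
  have hu'1 : u' + 1 ≠ 0 := by
    intro h
    have := congrArg Complex.re h
    rw [hu'] at this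
    simp at this
    linarith
  have hz' : -Complex.I * (ζ + ((-(2 * s * b) : ℝ) : ℂ)) = u' := by
    rw [hu', hu]
    push_cast
    ring
  unfold act psP
  rw [hz', ← hu]
  have e1 : grp (pmat τ b) (s * Complex.I) *ᵥ hz
      ![(u - 1) / (u + 1), 2 * (w * Complex.exp (((-τ / (2 * b) : ℝ) : ℂ) * u) /
        ((√(2 * (-τ / (2 * b)) * Real.exp 1) : ℝ) : ℂ)) / (u + 1)] =
      ![Complex.exp (τ * (s * Complex.I)) * (u' + 1) / (u + 1),
        Complex.exp (τ * (s * Complex.I)) * (u' - 1) / (u + 1),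
        2 * (w * Complex.exp (((-τ / (2 * b) : ℝ) : ℂ) * u) /
        ((√(2 * (-τ / (2 * b)) * Real.exp 1) : ℝ) : ℂ)) / (u + 1)] := by
    rw [grp_p]
    have hA : (1 : ℂ) + b * (s * Complex.I) * (1 - (u - 1) / (u + 1)) = (u' + 1) / (u + 1) := by
      rw [hu']
      field_simp
      ring
    have hB : (u - 1) / (u + 1) + b * (s * Complex.I) * (1 - (u - 1) / (u + 1)) =
        (u' - 1) / (u + 1) := by
      rw [hu']
      field_simp
      ring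
    ext i
    fin_cases i
    · simp only [hz, Fin.isValue, Matrix.cons_val_zero, Matrix.cons_val_one, Fin.zero_eta]
      rw [hA]
      ring
    · simp only [hz, Fin.isValue, Matrix.cons_val_zero, Matrix.cons_val_one, Fin.mk_one]
      rw [hB]
      ring
    · simp [hz]
  rw [e1]
  have hexp : Complex.exp (((-τ / (2 * b) : ℝ) : ℂ) * u') =
      Complex.exp (((-τ / (2 * b) : ℝ) : ℂ) * u) * (Complex.exp (τ * (s * Complex.I)))⁻¹ := by
    rw [← Complex.exp_neg, ← Complex.exp_add, hu']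
    congr 1
    push_cast
    field_simp
    ring
  have hE : Complex.exp (τ * (s * Complex.I)) ≠ 0 := Complex.exp_ne_zero _
  unfold pr
  ext i
  fin_cases i
  · simp only [Fin.isValue, Matrix.cons_val_zero, Matrix.cons_val_one, Fin.zero_eta]
    field_simp
  · simp only [Fin.isValue, Matrix.cons_val_zero, Matrix.cons_val_one, Fin.mk_one,
      Matrix.cons_val]
    rw [hexp]
    field_simp

/-- row FLN -/
theorem fln : FLN := by
  intro c hc w ζ hw hζ s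
  have hy : 2 * ζ.im ^ 2 < ((1 + w) / (1 - w)).re := hζ
  obtain ⟨X, hX⟩ : ∃ X : ℂ, X = (1 + w) / (1 - w) := ⟨_, rfl⟩
  rw [← hX] at hy
  have hne : ∀ x : ℝ, X + (ζ + x) ^ 2 + 1 ≠ 0 := by
    intro x h
    have h1 := congrArg Complex.re h
    simp [pow_two] at h1
    nlinarith [sq_nonneg (ζ.re + x)]
  have h0 : X + ζ ^ 2 + 1 ≠ 0 := by
    have := hne 0
    simpa using this
  have h1 := hne (-(s * c))
  unfold act psN
  rw [← hX]
  have hcc : Complex.I * (c : ℂ) ≠ 0 :=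
    mul_ne_zero Complex.I_ne_zero (Complex.ofReal_ne_zero.2 hc)
  have hs : (s : ℂ) * Complex.I = ((-(s * c) : ℝ) : ℂ) / (Complex.I * c) := by
    rw [eq_div_iff hcc]
    push_cast
    linear_combination (s * c : ℂ) * Complex.I_mul_I
  rw [hs, grp_n c hc]
  unfold pr
  obtain ⟨x, hx⟩ : ∃ x : ℂ, x = ((-(s * c) : ℝ) : ℂ) := ⟨_, rfl⟩
  rw [← hx] at h1 ⊢
  have hA : (1 : ℂ) + x * (2 * ζ / (X + ζ ^ 2 + 1)) +
      x ^ 2 / 2 * (1 - (X + ζ ^ 2 - 1) / (X + ζ ^ 2 + 1)) =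
      (X + (ζ + x) ^ 2 + 1) / (X + ζ ^ 2 + 1) := by
    field_simp
    ring
  have hB : (X + ζ ^ 2 - 1) / (X + ζ ^ 2 + 1) + x * (2 * ζ / (X + ζ ^ 2 + 1)) +
      x ^ 2 / 2 * (1 - (X + ζ ^ 2 - 1) / (X + ζ ^ 2 + 1)) =
      (X + (ζ + x) ^ 2 - 1) / (X + ζ ^ 2 + 1) := by
    field_simp
    ring
  have hC : 2 * ζ / (X + ζ ^ 2 + 1) + x * (1 - (X + ζ ^ 2 - 1) / (X + ζ ^ 2 + 1)) =
      2 * (ζ + x) / (X + ζ ^ 2 + 1) := by
    field_simp
    ring
  ext i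
  fin_cases i
  · simp only [hz, Fin.isValue, Matrix.cons_val_zero, Matrix.cons_val_one, Fin.zero_eta,
      Matrix.cons_val]
    rw [hA, hB]
    field_simp
  · simp only [hz, Fin.isValue, Matrix.cons_val_zero, Matrix.cons_val_one, Fin.mk_one,
      Matrix.cons_val]
    rw [hA, hC]
    field_simp

/-- row DIL -/
theorem dil : DIL := by
  intro m hm
  have hsm : 0 < √m := Real.sqrt_pos.2 hm
  obtain ⟨l, hl⟩ : ∃ l : ℝ, l = (√m)⁻¹ := ⟨_, rfl⟩
  have hl0 : 0 < l := by rw [hl]; positivity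
  have hlc : (l : ℂ) ≠ 0 := Complex.ofReal_ne_zero.2 hl0.ne'
  refine ⟨!![((l : ℂ) + (l : ℂ)⁻¹) / 2, ((l : ℂ) - (l : ℂ)⁻¹) / 2, 0;
      ((l : ℂ) - (l : ℂ)⁻¹) / 2, ((l : ℂ) + (l : ℂ)⁻¹) / 2, 0; 0, 0, 1], ?_, ?_⟩
  · have h2 : (starRingEnd ℂ) 2 = 2 := Complex.conj_ofNat 2
    ext i j
    fin_cases i <;> fin_cases j <;>
      simp [J3, Matrix.mul_apply, Fin.sum_univ_three, Matrix.conjTranspose, Matrix.diagonal, h2] <;>
      field_simp <;> ring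
  · intro z hz1
    have hz0 : ‖z 0‖ < 1 := by
      have h1 : ‖z 0‖ ^ 2 + ‖z 1‖ ^ 2 < 1 := by
        have : ∑ i, ‖z i‖ ^ 2 < 1 := hz1
        simpa [Fin.sum_univ_two] using this
      nlinarith [norm_nonneg (z 0), sq_nonneg ‖z 1‖]
    have hm1 : (1 : ℂ) - z 0 ≠ 0 := by
      intro h
      rw [← sub_eq_zero.1 h, norm_one] at hz0
      exact lt_irrefl _ hz0
    have hD : ((l : ℂ) + (l : ℂ)⁻¹) / 2 + ((l : ℂ) - (l : ℂ)⁻¹) / 2 * z 0 ≠ 0 := by
      intro h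
      have h1 : ((l : ℂ) + (l : ℂ)⁻¹) = -(((l : ℂ) - (l : ℂ)⁻¹) * z 0) := by
        linear_combination 2 * h
      have h2 : ‖((l : ℂ) + (l : ℂ)⁻¹)‖ = l + l⁻¹ := by
        have : ((l : ℂ) + (l : ℂ)⁻¹) = ((l + l⁻¹ : ℝ) : ℂ) := by push_cast; rfl
        rw [this, Complex.norm_real, Real.norm_of_nonneg (by positivity)]
      have h3 : ‖((l : ℂ) - (l : ℂ)⁻¹)‖ ≤ l + l⁻¹ := by
        have : ((l : ℂ) - (l : ℂ)⁻¹) = ((l - l⁻¹ : ℝ) : ℂ) := by push_cast; rfl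
        rw [this, Complex.norm_real, Real.norm_eq_abs, abs_le]
        have : 0 < l⁻¹ := by positivity
        constructor <;> linarith
      have h4 := congrArg norm h1
      rw [h2, norm_neg, norm_mul] at h4
      have h5 : 0 < l + l⁻¹ := by positivity
      nlinarith [norm_nonneg (z 0), norm_nonneg ((l : ℂ) - (l : ℂ)⁻¹)]
    have hact : act !![((l : ℂ) + (l : ℂ)⁻¹) / 2, ((l : ℂ) - (l : ℂ)⁻¹) / 2, 0;
      ((l : ℂ) - (l : ℂ)⁻¹) / 2, ((l : ℂ) + (l : ℂ)⁻¹) / 2, 0; 0, 0, 1] z =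
      ![(((l : ℂ) - (l : ℂ)⁻¹) / 2 + ((l : ℂ) + (l : ℂ)⁻¹) / 2 * z 0) /
        (((l : ℂ) + (l : ℂ)⁻¹) / 2 + ((l : ℂ) - (l : ℂ)⁻¹) / 2 * z 0),
        z 1 / (((l : ℂ) + (l : ℂ)⁻¹) / 2 + ((l : ℂ) - (l : ℂ)⁻¹) / 2 * z 0)] := by
      unfold act pr hz
      ext i
      fin_cases i <;> simp [Matrix.mulVec, dotProduct, Fin.sum_univ_three]
    rw [hact]
    unfold fPm fP
    simp only [Fin.isValue, Matrix.cons_val_zero, Matrix.cons_val_one]
    obtain ⟨N, hN⟩ : ∃ N : ℂ,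
      N = ((l : ℂ) + (l : ℂ)⁻¹) / 2 + ((l : ℂ) - (l : ℂ)⁻¹) / 2 * z 0 := ⟨_, rfl⟩
    obtain ⟨M, hM⟩ : ∃ M : ℂ,
      M = ((l : ℂ) - (l : ℂ)⁻¹) / 2 + ((l : ℂ) + (l : ℂ)⁻¹) / 2 * z 0 := ⟨_, rfl⟩
    rw [← hN] at hD ⊢
    rw [← hM]
    have hNM : N - M = (l : ℂ)⁻¹ * (1 - z 0) := by rw [hN, hM]; ring
    have hNP : N + M = l * (1 + z 0) := by rw [hN, hM]; ring
    have e1 : (1 : ℂ) - M / N = (N - M) / N := by field_simp
    have e2 : (1 : ℂ) + M / N = (N + M) / N := by field_simp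
    have hml : m * l ^ 2 = 1 := by
      rw [hl, inv_pow, Real.sq_sqrt hm.le]
      field_simp
    have hmlc : (m : ℂ) * (l : ℂ) ^ 2 = 1 := by exact_mod_cast hml
    have hv : z 1 / N / (1 - M / N) = l * (z 1 / (1 - z 0)) := by
      rw [e1, hNM]
      field_simp
    have huu : (m : ℂ) * ((1 + M / N) / (1 - M / N)) = (1 + z 0) / (1 - z 0) := by
      rw [e1, e2, hNM, hNP]
      field_simp
      linear_combination (1 + z 0) * hmlc
    rw [hv, huu]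
    have hk : √(2 * m * Real.exp 1) * l = √(2 * Real.exp 1) := by
      rw [hl, show 2 * m * Real.exp 1 = 2 * Real.exp 1 * m by ring,
        Real.sqrt_mul (by positivity), mul_assoc, mul_inv_cancel₀ hsm.ne', mul_one]
    have hkc : ((√(2 * m * Real.exp 1) : ℝ) : ℂ) * (l : ℂ) = ((√(2 * Real.exp 1) : ℝ) : ℂ) := by
      exact_mod_cast congrArg (fun x : ℝ => (x : ℂ)) hk
    rw [← hkc]
    ring

end

end Pool.Agent.Lib.MP_6ff8d9_an.N2
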