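import Pool.Agent.Lib.MP_6ff8d9_an_h8.SymRows2
import Pool.Agent.Lib.MP_6ff8d9_an_h23.Proj

/-!
# MP_6ff8d9, row QXI: `X` and `1/X` are not equivalent
-/

open Metric Filter Topology MvPolynomial Matrix
open scoped ComplexConjugate

namespace Pool.Agent.Lib.MP_6ff8d9_an.N2

open Pool.Agent.Lib.MP_6ff8d9_an Pool.Agent.Lib.MP_6ff8d9_an.H22

noncomputable section

namespace Qxi

lemma mu_zero {A : Matrix (Fin 3) (Fin 3) ℂ} (hA : JU A) {lam mu : ℝ}
    (h : nmat 1 * A = A * ((lam : ℂ) • nmat 1 + (mu : ℂ) • (1 : Matrix (Fin 3) (Fin 3) ℂ))) :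
    mu = 0 ∧ lam ≠ 0 := by
  have h1 : nmat 1 = A * ((lam : ℂ) • nmat 1 + (mu : ℂ) • (1 : Matrix (Fin 3) (Fin 3) ℂ)) * A⁻¹ := by
    rw [← h, mul_assoc, hA.mul_inv, mul_one]
  have h2 : (nmat 1).trace =
      ((lam : ℂ) • nmat 1 + (mu : ℂ) • (1 : Matrix (Fin 3) (Fin 3) ℂ)).trace := by
    conv_lhs => rw [h1]
    rw [Matrix.trace_mul_cycle, hA.inv_mul, one_mul]
  have h3 : mu = 0 := by
    simp [nmat, Matrix.trace, Fin.sum_univ_three] at h2
    have h5 : (mu : ℂ) = 0 := by linear_combination (-1 / 3) * h2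
    exact_mod_cast h5
  refine ⟨h3, ?_⟩
  rintro rfl
  rw [h3] at h1
  have h4 := congrFun (congrFun h1 2) 0
  simp [nmat] at h4

/-- the values on the real axis -/
def pt (x : ℝ) : Cn 2 := WithLp.toLp 2 ![(((x - 1) / (x + 1) : ℝ) : ℂ), 0]

lemma pt_mem {x : ℝ} (hx : 0 < x) : pt x ∈ ball (0 : Cn 2) 1 := by
  rw [ball_iff, mem_Bn2]
  have h1 : |(x - 1) / (x + 1)| < 1 := by
    rw [abs_div, abs_of_pos (by linarith : 0 < x + 1), div_lt_one (by linarith), abs_lt]
    constructor <;> linarith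
  have h2 : ((x - 1) / (x + 1)) ^ 2 < 1 := by
    rw [← sq_abs]
    nlinarith [abs_nonneg ((x - 1) / (x + 1))]
  have e0 : ‖(pt x) 0‖ ^ 2 = ((x - 1) / (x + 1)) ^ 2 := by
    show ‖(((x - 1) / (x + 1) : ℝ) : ℂ)‖ ^ 2 = _
    rw [Complex.norm_real, Real.norm_eq_abs, sq_abs]
  have e1 : ‖(pt x) 1‖ ^ 2 = 0 := by
    show ‖(0 : ℂ)‖ ^ 2 = 0
    simp
  simp only [e0, e1]
  linarith

lemma quad_pt {x : ℝ} (hx : 0 < x) : Idx.quad.fn (pt x) = x := by
  show (1 + (((x - 1) / (x + 1) : ℝ) : ℂ)) / (1 - (((x - 1) / (x + 1) : ℝ) : ℂ)) -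
    ((0 : ℂ) / (1 - (((x - 1) / (x + 1) : ℝ) : ℂ))) ^ 2 = x
  rw [zero_div]
  have h1 : (x : ℂ) + 1 ≠ 0 := by
    exact_mod_cast (by linarith : x + 1 ≠ 0)
  have h2 : (1 : ℂ) - (((x - 1) / (x + 1) : ℝ) : ℂ) = 2 / (x + 1) := by
    push_cast
    field_simp
    ring
  have h3 : (1 : ℂ) + (((x - 1) / (x + 1) : ℝ) : ℂ) = 2 * x / (x + 1) := by
    push_cast
    field_simp
    ring
  rw [h2, h3]
  field_simp
  ring

lemma quad_act {A : Matrix (Fin 3) (Fin 3) ℂ} (hA : JU A) {lam mu : ℝ}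
    (h : nmat 1 * A = A * ((lam : ℂ) • nmat 1 + (mu : ℂ) • (1 : Matrix (Fin 3) (Fin 3) ℂ))) :
    ∃ κ : ℂ, ∀ x : ℝ, 0 < x → Idx.quad.fn (actC A (pt x)) = (1 / lam ^ 2 : ℂ) * x + κ := by
  obtain ⟨hm, hl⟩ := mu_zero hA h
  have hlC : (lam : ℂ) ≠ 0 := by exact_mod_cast hl
  subst hm
  have e : ∀ i j, (nmat 1 * A) i j = (A * ((lam : ℂ) • nmat 1 +
      ((0 : ℝ) : ℂ) • (1 : Matrix (Fin 3) (Fin 3) ℂ))) i j := fun i j => by rw [h]
  have e02 := e 0 2
  have e12 := e 1 2
  have e20 := e 2 0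
  have e21 := e 2 1
  have e00 := e 0 0
  have e10 := e 1 0
  have e01 := e 0 1
  simp [nmat, Matrix.mul_apply, Fin.sum_univ_three] at e02 e12 e20 e21 e00 e10 e01
  have hI := Complex.I_ne_zero
  -- cancel `I`
  have f02 : A 2 2 = lam * (A 0 0 + A 0 1) := by
    apply mul_left_cancel₀ hI
    linear_combination e02
  have f12 : A 2 2 = lam * (A 1 0 + A 1 1) := by
    apply mul_left_cancel₀ hI
    linear_combination e12
  have f20 : A 0 0 - A 1 0 = lam * A 2 2 := by
    apply mul_left_cancel₀ hI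
    linear_combination e20
  have f21 : A 0 1 - A 1 1 = - (lam * A 2 2) := by
    apply mul_left_cancel₀ hI
    linear_combination e21
  have f00 : A 2 0 = lam * A 0 2 := by
    apply mul_left_cancel₀ hI
    linear_combination e00
  have f10 : A 2 0 = lam * A 1 2 := by
    apply mul_left_cancel₀ hI
    linear_combination e10
  have f01 : A 2 1 = - (lam * A 0 2) := by
    apply mul_left_cancel₀ hI
    linear_combination e01
  have g2 : A 0 2 = A 1 2 := mul_left_cancel₀ hlC (by rw [← f00, ← f10])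
  have ha : A 2 2 ≠ 0 := by
    intro ha
    have r0 : A 0 0 = A 1 0 := by
      have := f20
      rw [ha, mul_zero] at this
      exact sub_eq_zero.1 this
    have r1 : A 0 1 = A 1 1 := by
      have := f21
      rw [ha, mul_zero, neg_zero] at this
      exact sub_eq_zero.1 this
    have hd : A.det = 0 := by
      apply Matrix.det_zero_of_row_eq (i := 0) (j := 1) (by decide)
      funext k
      fin_cases k
      · exact r0
      · exact r1
      · exact g2
    have hd2 : (A * A⁻¹).det = 1 := by rw [hA.mul_inv, Matrix.det_one]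
    rw [Matrix.det_mul, hd, zero_mul] at hd2
    exact zero_ne_one hd2
  refine ⟨(A 0 0 + A 1 0 - A 0 1 - A 1 1) / 2 / (lam * A 2 2) - (A 2 0 / (lam * A 2 2)) ^ 2, ?_⟩
  intro x hx
  have hW0 := (hA.act_mem (ball_iff.1 (pt_mem hx))).1
  set t : ℂ := (((x - 1) / (x + 1) : ℝ) : ℂ) with ht
  have w0 : (A *ᵥ hz (fun i => (pt x) i)) 0 = A 0 0 + A 0 1 * t := by
    simp [Matrix.mulVec, dotProduct, Fin.sum_univ_three, hz, pt, ht]
  have w1 : (A *ᵥ hz (fun i => (pt x) i)) 1 = A 1 0 + A 1 1 * t := by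
    simp [Matrix.mulVec, dotProduct, Fin.sum_univ_three, hz, pt, ht]
  have w2 : (A *ᵥ hz (fun i => (pt x) i)) 2 = A 2 0 + A 2 1 * t := by
    simp [Matrix.mulVec, dotProduct, Fin.sum_univ_three, hz, pt, ht]
  rw [w0] at hW0
  have h1 : (x : ℂ) + 1 ≠ 0 := by
    exact_mod_cast (by linarith : x + 1 ≠ 0)
  have h2 : (1 : ℂ) - t = 2 / (x + 1) := by
    rw [ht]
    push_cast
    field_simp
    ring
  have h3 : (1 : ℂ) + t = 2 * x / (x + 1) := by
    rw [ht]
    push_cast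
    field_simp
    ring
  have d : (A 0 0 + A 0 1 * t) - (A 1 0 + A 1 1 * t) = lam * A 2 2 * (1 - t) := by
    linear_combination f20 + t * f21
  have s : (A 0 0 + A 0 1 * t) + (A 1 0 + A 1 1 * t) = A 2 2 / lam * (1 + t) +
      (A 0 0 + A 1 0 - A 0 1 - A 1 1) / 2 * (1 - t) := by
    have f1 : A 0 0 + A 0 1 = A 2 2 / lam := by
      rw [f02]; field_simp
    have f2 : A 1 0 + A 1 1 = A 2 2 / lam := by
      rw [f12]; field_simp
    linear_combination (1 + t) / 2 * f1 + (1 + t) / 2 * f2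
  have q : A 2 0 + A 2 1 * t = A 2 0 * (1 - t) := by
    have : A 2 1 = - A 2 0 := by rw [f01, f00]
    rw [this]; ring
  have ht1 : (1 : ℂ) - t ≠ 0 := by
    rw [h2]
    exact div_ne_zero two_ne_zero h1
  have key : Idx.quad.fn (actC A (pt x)) =
      ((A 0 0 + A 0 1 * t) + (A 1 0 + A 1 1 * t)) / ((A 0 0 + A 0 1 * t) - (A 1 0 + A 1 1 * t)) -
      ((A 2 0 + A 2 1 * t) / ((A 0 0 + A 0 1 * t) - (A 1 0 + A 1 1 * t))) ^ 2 := by
    have hne : (A 0 0 + A 0 1 * t) - (A 1 0 + A 1 1 * t) ≠ 0 := by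
      rw [d]
      exact mul_ne_zero (mul_ne_zero hlC ha) ht1
    show (1 + (A *ᵥ hz (fun i => (pt x) i)) 1 / (A *ᵥ hz (fun i => (pt x) i)) 0) /
        (1 - (A *ᵥ hz (fun i => (pt x) i)) 1 / (A *ᵥ hz (fun i => (pt x) i)) 0) -
        (((A *ᵥ hz (fun i => (pt x) i)) 2 / (A *ᵥ hz (fun i => (pt x) i)) 0) /
        (1 - (A *ᵥ hz (fun i => (pt x) i)) 1 / (A *ᵥ hz (fun i => (pt x) i)) 0)) ^ 2 = _
    rw [w0, w1, w2]
    set a := A 0 0 + A 0 1 * t
    set b := A 1 0 + A 1 1 * t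
    set c := A 2 0 + A 2 1 * t
    have e1 : 1 + b / a = (a + b) / a := by field_simp
    have e2 : 1 - b / a = (a - b) / a := by field_simp
    rw [e1, e2, div_div_div_cancel_right₀ hW0, div_div_div_cancel_right₀ hW0]
  rw [key, d, s, q]
  have hx' : (x : ℂ) = (1 + t) / (1 - t) := by
    rw [h2, h3]
    field_simp
  rw [hx']
  field_simp
  ring

end Qxi

open Qxi in
theorem qxi : QXI := by
  intro A lam mu hA' h
  have hA : JU A := hA'
  obtain ⟨κ, hκ⟩ := quad_act hA h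
  obtain ⟨hm, hl⟩ := mu_zero hA h
  have hρ : (1 / lam ^ 2 : ℂ) ≠ 0 := by
    have : (lam : ℂ) ≠ 0 := by exact_mod_cast hl
    exact one_div_ne_zero (pow_ne_zero 2 this)
  set ρ : ℂ := (1 / lam ^ 2 : ℂ) with hρd
  clear_value ρ
  constructor
  · intro hE
    set α : ℂ := ((Idx.quadInv.fn (actC A 0)).re : ℂ) with hα
    set β : ℂ := Complex.I * ((Idx.quadInv.fn (actC A 0)).im : ℂ) with hβ
    have h1 : ∀ x : ℝ, 0 < x → (x : ℂ) = ((ρ * x + κ)⁻¹ - β) / α := by
      intro x hx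
      have h2 := hE (pt x) (pt_mem hx)
      rw [quad_pt hx] at h2
      refine h2.trans ?_
      show (Idx.quadInv.fn (actC A (pt x)) - β) / α = _
      have h3 : Idx.quadInv.fn (actC A (pt x)) = (Idx.quad.fn (actC A (pt x)))⁻¹ := rfl
      rw [h3, hκ x hx]
    have hα0 : α ≠ 0 := by
      intro h0
      have := h1 1 one_pos
      rw [h0, div_zero] at this
      simp at this
    clear_value α β
    have h2 : ∀ x : ℝ, 0 < x → α * x + β = (ρ * x + κ)⁻¹ := by
      intro x hx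
      have := h1 x hx
      rw [eq_div_iff hα0] at this
      linear_combination this
    by_cases hz : ∃ x : ℝ, 0 < x ∧ ρ * x + κ = 0
    · obtain ⟨x, hx, h0⟩ := hz
      have h3 := h2 x hx
      rw [h0, _root_.inv_zero] at h3
      have h4 := h2 (x + 1) (by linarith)
      have h5 := h2 (x + 2) (by linarith)
      have e4 : ρ * ((x + 1 : ℝ) : ℂ) + κ = ρ := by
        push_cast
        linear_combination h0
      have e5 : ρ * ((x + 2 : ℝ) : ℂ) + κ = 2 * ρ := by
        push_cast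
        linear_combination h0
      rw [e4] at h4
      rw [e5] at h5
      push_cast at h4 h5
      have h6 : α = ρ⁻¹ := by linear_combination h4 - h3
      have h7 : 2 * α = (2 * ρ)⁻¹ := by linear_combination h5 - h3
      rw [h6, mul_inv] at h7
      have h8 : (2 : ℂ) = 2⁻¹ := mul_right_cancel₀ (inv_ne_zero hρ) h7
      norm_num at h8
    · push Not at hz
      have h3 : ∀ x : ℝ, 0 < x → (α * x + β) * (ρ * x + κ) = 1 := by
        intro x hx
        rw [h2 x hx, inv_mul_cancel₀ (hz x hx)]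
      have a1 := h3 1 (by norm_num)
      have a2 := h3 2 (by norm_num)
      have a3 := h3 3 (by norm_num)
      push_cast at a1 a2 a3
      have h4 : α * ρ = 0 := by
        linear_combination (1 / 2) * a1 - a2 + (1 / 2) * a3
      rcases mul_eq_zero.1 h4 with h5 | h5
      · exact hα0 h5
      · exact hρ h5
  · intro hE
    set α : ℂ := ((Idx.quad.fn (actC A 0)).re : ℂ) with hα
    set β : ℂ := Complex.I * ((Idx.quad.fn (actC A 0)).im : ℂ) with hβ
    have h1 : ∀ x : ℝ, 0 < x → (x : ℂ)⁻¹ = ((ρ * x + κ) - β) / α := by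
      intro x hx
      have h2 := hE (pt x) (pt_mem hx)
      have h3 : Idx.quadInv.fn (pt x) = (Idx.quad.fn (pt x))⁻¹ := rfl
      rw [h3, quad_pt hx] at h2
      refine h2.trans ?_
      show (Idx.quad.fn (actC A (pt x)) - β) / α = _
      rw [hκ x hx]
    have hα0 : α ≠ 0 := by
      intro h0
      have := h1 1 one_pos
      rw [h0, div_zero] at this
      simp at this
    clear_value α β
    have h2 : ∀ x : ℝ, 0 < x → α = x * ((ρ * x + κ) - β) := by
      intro x hx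
      have h3 := h1 x hx
      have hx0 : (x : ℂ) ≠ 0 := by exact_mod_cast hx.ne'
      rw [eq_div_iff hα0] at h3
      rw [← h3]
      field_simp
    have a1 := h2 1 (by norm_num)
    have a2 := h2 2 (by norm_num)
    have a3 := h2 3 (by norm_num)
    push_cast at a1 a2 a3
    apply hρ
    linear_combination (-1 / 2) * a1 + a2 - (1 / 2) * a3

end

end Pool.Agent.Lib.MP_6ff8d9_an.N2
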